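import Mathlib
import Pool.Agent.H.MP_59b15d_al.h76r.Defs

set_option autoImplicit false

namespace Pool.MP_59b15d_al.H60G

open Pool.MP_59b15d_al.H76R

/-- `f` maps the image of the free group of the first `g` handles to itself and induces `φ` on the
closed surface group with the standard generators `a, b`. -/
def Ind {g n : ℕ} {G G' : Type*} [Group G] [Group G'] (a b : Fin g → G) (a' b' : Fin n → G')
    (hg : g ≤ n) (f : MulAut G') (φ : MulAut G) : Prop :=
  ∀ z : FreeGroup (Fin g ⊕ Fin g), ∃ z' : FreeGroup (Fin g ⊕ Fin g),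
    f (subHom a' b' g hg z) = subHom a' b' g hg z' ∧
    φ (subHom a b g le_rfl z) = subHom a b g le_rfl z'

end Pool.MP_59b15d_al.H60G
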