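import Mathlib
import Pool.Agent.H.MP_59b15d_al.h73e.Ba

set_option autoImplicit false

namespace Pool.MP_59b15d_al.H60G

open Pool.MP_59b15d_al.H24T Pool.MP_59b15d_al.H76R Pool.MP_59b15d_al.H73E

section

variable {m : ℕ} {G : Type*} [Group G] {a b : Fin m → G}

/-- The `k`-th element of a family, `1` if `k` is too large. -/
def ex (a : Fin m → G) (k : ℕ) : G := if hk : k < m then a ⟨k, hk⟩ else 1

theorem ex_val (a : Fin m → G) (k : Fin m) : ex a k = a k := by
  simp [ex]

theorem ex_lt (a : Fin m → G) {k : ℕ} (hk : k < m) : ex a k = a ⟨k, hk⟩ := by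
  simp [ex, hk]

theorem ex_ge (a : Fin m → G) {k : ℕ} (hk : m ≤ k) : ex a k = 1 := by
  rw [ex, dif_neg (by omega)]

/-- The commutator of the `k`-th handle. -/
def cm (a b : Fin m → G) (k : ℕ) : G := ex a k * ex b k * (ex a k)⁻¹ * (ex b k)⁻¹

/-- The product of the first `k` commutators. -/
def DD (a b : Fin m → G) : ℕ → G
  | 0 => 1
  | k + 1 => DD a b k * cm a b k

theorem DD_zero (a b : Fin m → G) : DD a b 0 = 1 := rfl

theorem DD_succ (a b : Fin m → G) (k : ℕ) : DD a b (k + 1) = DD a b k * cm a b k := rfl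

/-- An automorphism fixing the first `k` handles fixes the product of their commutators. -/
theorem fix_DD {P : Type*} [Group P] (f : G →* P) {x y : ℕ → P} (k : ℕ)
    (hf : ∀ j, j < k → f (ex a j) = x j ∧ f (ex b j) = y j) :
    f (DD a b k) = (List.ofFn fun j : Fin k => x j * y j * (x j)⁻¹ * (y j)⁻¹).prod := by
  induction k with
  | zero => simp [DD]
  | succ k ih =>
    rw [DD_succ, map_mul, ih (fun j hj => hf j (by omega)), List.ofFn_succ', List.concat_eq_append,
      List.prod_append, List.prod_singleton, cm]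
    simp only [map_mul, map_inv, (hf k (by omega)).1, (hf k (by omega)).2, Fin.val_castSucc,
      Fin.val_last]

theorem DD_fix {f : MulAut G} (k : ℕ)
    (hf : ∀ j, j < k → f (ex a j) = ex a j ∧ f (ex b j) = ex b j) : f (DD a b k) = DD a b k := by
  induction k with
  | zero => simp [DD]
  | succ k ih =>
    rw [DD_succ, map_mul, ih (fun j hj => hf j (by omega)), cm]
    simp only [map_mul, map_inv, (hf k (by omega)).1, (hf k (by omega)).2]

theorem DD_conj {f : MulAut G} {c : G} (k : ℕ)
    (hf : ∀ j, j < k → f (ex a j) = c * ex a j * c⁻¹ ∧ f (ex b j) = c * ex b j * c⁻¹) :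
    f (DD a b k) = c * DD a b k * c⁻¹ := by
  induction k with
  | zero => simp [DD]
  | succ k ih =>
    rw [DD_succ, map_mul, ih (fun j hj => hf j (by omega)), cm]
    simp only [map_mul, map_inv, (hf k (by omega)).1, (hf k (by omega)).2]
    group

theorem cm_fix {f : MulAut G} (k : ℕ) (hf : f (ex a k) = ex a k ∧ f (ex b k) = ex b k) :
    f (cm a b k) = cm a b k := by
  rw [cm]
  simp only [map_mul, map_inv, hf.1, hf.2]

/-- Automorphisms agreeing on the handles are equal. -/
theorem ext_ex (h : IsSurf a b) {F F' : MulAut G}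
    (hF : ∀ k, k < m → F (ex a k) = F' (ex a k) ∧ F (ex b k) = F' (ex b k)) : F = F' := by
  apply aut_ext h
  · intro i
    have := (hF i i.2).1
    rwa [ex_val] at this
  · intro i
    have := (hF i i.2).2
    rwa [ex_val] at this

/-- The group generated by the twists of the handles `lo, …, hi - 1`. -/
def MR (h : IsSurf a b) (lo hi : ℕ) : Subgroup (MulAut G) :=
  Subgroup.closure {T | (∃ i : Fin m, lo ≤ (i : ℕ) ∧ (i : ℕ) < hi ∧ T = TA h i) ∨
    (∃ i : Fin m, lo ≤ (i : ℕ) ∧ (i : ℕ) < hi ∧ T = TB h i) ∨
    ∃ (i j : Fin m) (hij : (j : ℕ) = i + 1), lo ≤ (i : ℕ) ∧ (j : ℕ) < hi ∧ T = TC h i j hij}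

theorem TA_mem (h : IsSurf a b) {lo hi : ℕ} (i : Fin m) (h1 : lo ≤ (i : ℕ)) (h2 : (i : ℕ) < hi) :
    TA h i ∈ MR h lo hi := Subgroup.subset_closure (Or.inl ⟨i, h1, h2, rfl⟩)

theorem TB_mem (h : IsSurf a b) {lo hi : ℕ} (i : Fin m) (h1 : lo ≤ (i : ℕ)) (h2 : (i : ℕ) < hi) :
    TB h i ∈ MR h lo hi := Subgroup.subset_closure (Or.inr (Or.inl ⟨i, h1, h2, rfl⟩))

theorem TC_mem (h : IsSurf a b) {lo hi : ℕ} (i j : Fin m) (hij : (j : ℕ) = i + 1)
    (h1 : lo ≤ (i : ℕ)) (h2 : (j : ℕ) < hi) : TC h i j hij ∈ MR h lo hi :=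
  Subgroup.subset_closure (Or.inr (Or.inr ⟨i, j, hij, h1, h2, rfl⟩))

theorem MR_le (h : IsSurf a b) {lo hi : ℕ} {S : Subgroup (MulAut G)}
    (hA : ∀ i : Fin m, lo ≤ (i : ℕ) → (i : ℕ) < hi → TA h i ∈ S)
    (hB : ∀ i : Fin m, lo ≤ (i : ℕ) → (i : ℕ) < hi → TB h i ∈ S)
    (hC : ∀ (i j : Fin m) (hij : (j : ℕ) = i + 1), lo ≤ (i : ℕ) → (j : ℕ) < hi →
      TC h i j hij ∈ S) : MR h lo hi ≤ S := by
  rw [MR, Subgroup.closure_le]
  rintro T (⟨i, h1, h2, rfl⟩ | ⟨i, h1, h2, rfl⟩ | ⟨i, j, hij, h1, h2, rfl⟩)
  · exact hA i h1 h2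
  · exact hB i h1 h2
  · exact hC i j hij h1 h2

theorem MR_mono (h : IsSurf a b) {lo hi lo' hi' : ℕ} (h1 : lo' ≤ lo) (h2 : hi ≤ hi') :
    MR h lo hi ≤ MR h lo' hi' := by
  apply MR_le h
  · intro i h3 h4
    exact TA_mem h i (by omega) (by omega)
  · intro i h3 h4
    exact TB_mem h i (by omega) (by omega)
  · intro i j hij h3 h4
    exact TC_mem h i j hij (by omega) (by omega)

/-- The subgroup of the automorphisms fixing certain elements. -/
def fixS (S : Set G) : Subgroup (MulAut G) where
  carrier := {f | ∀ x ∈ S, f x = x}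
  one_mem' := fun _ _ => rfl
  mul_mem' := by
    intro f f' h1 h2 x hx
    rw [MulAut.mul_apply, h2 x hx, h1 x hx]
  inv_mem' := by
    intro f h1 x hx
    have h2 := h1 x hx
    conv_lhs => rw [← h2]
    exact MulAut.inv_apply_self G f x

theorem mem_fixS {S : Set G} {f : MulAut G} : f ∈ fixS S ↔ ∀ x ∈ S, f x = x := Iff.rfl

/-- The twists of some handles fix the others. -/
theorem MR_fix (h : IsSurf a b) {lo hi : ℕ} {f : MulAut G} (hf : f ∈ MR h lo hi) (k : ℕ)
    (hk : k < lo ∨ hi ≤ k) : f (ex a k) = ex a k ∧ f (ex b k) = ex b k := by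
  have hle : MR h lo hi ≤ fixS {ex a k, ex b k} := by
    by_cases hkm : k < m
    · rw [ex_lt a hkm, ex_lt b hkm]
      apply MR_le h
      · intro i h3 h4
        have hne : (⟨k, hkm⟩ : Fin m) ≠ i := by
          rintro rfl
          simp only at h3 h4
          omega
        rintro x (rfl | rfl)
        · exact TA_a h i _
        · exact TA_b_ne h hne
      · intro i h3 h4
        have hne : (⟨k, hkm⟩ : Fin m) ≠ i := by
          rintro rfl
          simp only at h3 h4
          omega
        rintro x (rfl | rfl)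
        · exact TB_a_ne h hne
        · exact TB_b h i _
      · intro i j hij h3 h4
        have hne : (⟨k, hkm⟩ : Fin m) ≠ i := by
          rintro rfl
          simp only at h3 h4 hij
          omega
        have hne' : (⟨k, hkm⟩ : Fin m) ≠ j := by
          rintro rfl
          simp only at h3 h4 hij
          omega
        rintro x (rfl | rfl)
        · exact TC_a_ne h hij hne hne'
        · exact TC_b_ne h hij hne hne'
    · rw [ex_ge a (by omega), ex_ge b (by omega)]
      intro f _
      rintro x (rfl | rfl) <;> exact map_one f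
  have := hle hf
  exact ⟨this _ (Or.inl rfl), this _ (Or.inr rfl)⟩

/-- The twists of the handles `lo, …, hi - 1` fix the product of the first `k` commutators if
`k ≤ lo` or `hi ≤ k` and `lo = 0`. -/
theorem MR_DD (h : IsSurf a b) {lo hi : ℕ} {f : MulAut G} (hf : f ∈ MR h lo hi) {k : ℕ}
    (hk : hi ≤ k ∨ k ≤ lo) : f (DD a b k) = DD a b k := by
  rcases hk with hk | hk
  · have hle : MR h lo hi ≤ fixS {DD a b k} := by
      have hcomA : ∀ i : Fin m, ∀ j : ℕ, TA h i (cm a b j) = cm a b j := by
        intro i j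
        by_cases hjm : j < m
        · rw [cm, ex_lt a hjm, ex_lt b hjm]
          by_cases hji : (⟨j, hjm⟩ : Fin m) = i
          · subst hji
            simp only [map_mul, map_inv, TA_a, TA_b]
            group
          · simp only [map_mul, map_inv, TA_a, TA_b_ne h hji]
        · rw [cm, ex_ge a (by omega), ex_ge b (by omega)]
          simp
      have hcomB : ∀ i : Fin m, ∀ j : ℕ, TB h i (cm a b j) = cm a b j := by
        intro i j
        by_cases hjm : j < m
        · rw [cm, ex_lt a hjm, ex_lt b hjm]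
          by_cases hji : (⟨j, hjm⟩ : Fin m) = i
          · subst hji
            simp only [map_mul, map_inv, TB_a, TB_b]
            group
          · simp only [map_mul, map_inv, TB_b, TB_a_ne h hji]
        · rw [cm, ex_ge a (by omega), ex_ge b (by omega)]
          simp
      have hcomC : ∀ (i j : Fin m) (hij : (j : ℕ) = i + 1) (l : ℕ), l ≠ i → l ≠ j →
          TC h i j hij (cm a b l) = cm a b l := by
        intro i j hij l h1 h2
        by_cases hlm : l < m
        · rw [cm, ex_lt a hlm, ex_lt b hlm]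
          have n1 : (⟨l, hlm⟩ : Fin m) ≠ i := by rintro rfl; exact h1 rfl
          have n2 : (⟨l, hlm⟩ : Fin m) ≠ j := by rintro rfl; exact h2 rfl
          simp only [map_mul, map_inv, TC_a_ne h hij n1 n2, TC_b_ne h hij n1 n2]
        · rw [cm, ex_ge a (by omega), ex_ge b (by omega)]
          simp
      have hcomC2 : ∀ (i j : Fin m) (hij : (j : ℕ) = i + 1),
          TC h i j hij (cm a b i * cm a b j) = cm a b i * cm a b j := by
        intro i j hij
        rw [cm, cm, ex_val, ex_val, ex_val, ex_val]
        simp only [map_mul, map_inv, TC_ai, TC_aj, TC_bi, TC_bj]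
        group
      apply MR_le h
      · intro i _ _
        rintro x rfl
        clear hk
        induction k with
        | zero => simp [DD]
        | succ k ih => rw [DD_succ, map_mul, ih, hcomA]
      · intro i _ _
        rintro x rfl
        clear hk
        induction k with
        | zero => simp [DD]
        | succ k ih => rw [DD_succ, map_mul, ih, hcomB]
      · intro i j hij _ hj
        rintro x rfl
        have h0 : ∀ l : ℕ, l ≤ (i : ℕ) → TC h i j hij (DD a b l) = DD a b l := by
          intro l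
          induction l with
          | zero => intro _; simp [DD]
          | succ l ih => intro hl; rw [DD_succ, map_mul, ih (by omega), hcomC i j hij l (by omega)
              (by omega)]
        have h1 : TC h i j hij (DD a b (j + 1)) = DD a b (j + 1) := by
          have h2 : DD a b (j + 1) = DD a b i * (cm a b i * cm a b j) := by
            rw [DD_succ, hij, DD_succ, mul_assoc]
          rw [h2, map_mul, h0 i le_rfl, hcomC2]
        have h3 : ∀ l : ℕ, (j : ℕ) + 1 ≤ l → TC h i j hij (DD a b l) = DD a b l := by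
          intro l hl
          induction l, hl using Nat.le_induction with
          | base => exact h1
          | succ l hl ih => rw [DD_succ, map_mul, ih, hcomC i j hij l (by omega) (by omega)]
        exact h3 k (by omega)
    exact hle hf _ rfl
  · exact DD_fix k fun j hj => MR_fix h hf j (by omega)

end

end Pool.MP_59b15d_al.H60G
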