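import Mathlib
import Pool.Agent.H.MP_59b15d_al.h60g.Ba
import Pool.Agent.H.MP_59b15d_al.h76r.Rj

set_option autoImplicit false
set_option linter.unusedSimpArgs false

namespace Pool.MP_59b15d_al.H60G

open Pool.MP_59b15d_al.H24T Pool.MP_59b15d_al.H76R Pool.MP_59b15d_al.H73E

section

variable {m : ℕ} {G : Type*} [Group G] {a b : Fin m → G}

/-- The swap of two consecutive handles. -/
theorem exists_swap (h : IsSurf a b) (i j : Fin m) (hij : (j : ℕ) = i + 1) :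
    ∃ σ ∈ MR h i (i + 2), σ (a j) = a i ∧ σ (b j) = b i ∧
      σ (a i) = (a i * b i * (a i)⁻¹ * (b i)⁻¹) * a j * (a i * b i * (a i)⁻¹ * (b i)⁻¹)⁻¹ ∧
      σ (b i) = (a i * b i * (a i)⁻¹ * (b i)⁻¹) * b j * (a i * b i * (a i)⁻¹ * (b i)⁻¹)⁻¹ ∧
      ∀ k, k ≠ i → k ≠ j → σ (a k) = a k ∧ σ (b k) = b k := by
  have hji : j ≠ i := by
    rintro rfl
    omega
  have n1 : TA h j (b i) = b i := TA_b_ne h hji.symm
  have n2 : TA h i (b j) = b j := TA_b_ne h hji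
  have n3 : TB h j (a i) = a i := TB_a_ne h hji.symm
  have n4 : TB h i (a j) = a j := TB_a_ne h hji
  have n5 : (TA h j)⁻¹ (b i) = b i := TAi_b_ne h hji.symm
  have n6 : (TA h i)⁻¹ (b j) = b j := TAi_b_ne h hji
  have n7 : (TB h j)⁻¹ (a i) = a i := TBi_a_ne h hji.symm
  have n8 : (TB h i)⁻¹ (a j) = a j := TBi_a_ne h hji
  have e1_1 : (TB h j)⁻¹ (a i) = a i := by
    simp only [map_mul, map_inv, TA_a, TA_b, TB_a, TB_b, TAi_a, TAi_b, TBi_a, TBi_b, TC_ai, TC_aj,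
      TC_bi, TC_bj, n1, n2, n3, n4, n5, n6, n7, n8]
    try group
  have e1_2 : (TB h j)⁻¹ (b i) = b i := by
    simp only [map_mul, map_inv, TA_a, TA_b, TB_a, TB_b, TAi_a, TAi_b, TBi_a, TBi_b, TC_ai, TC_aj,
      TC_bi, TC_bj, n1, n2, n3, n4, n5, n6, n7, n8]
    try group
  have e1_3 : (TB h j)⁻¹ (a j) = a j * (b j)⁻¹ := by
    simp only [map_mul, map_inv, TA_a, TA_b, TB_a, TB_b, TAi_a, TAi_b, TBi_a, TBi_b, TC_ai, TC_aj,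
      TC_bi, TC_bj, n1, n2, n3, n4, n5, n6, n7, n8]
    try group
  have e1_4 : (TB h j)⁻¹ (b j) = b j := by
    simp only [map_mul, map_inv, TA_a, TA_b, TB_a, TB_b, TAi_a, TAi_b, TBi_a, TBi_b, TC_ai, TC_aj,
      TC_bi, TC_bj, n1, n2, n3, n4, n5, n6, n7, n8]
    try group
  have e2_1 : TA h j (a i) = a i := by
    simp only [map_mul, map_inv, TA_a, TA_b, TB_a, TB_b, TAi_a, TAi_b, TBi_a, TBi_b, TC_ai, TC_aj,
      TC_bi, TC_bj, n1, n2, n3, n4, n5, n6, n7, n8]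
    try group
  have e2_2 : TA h j (b i) = b i := by
    simp only [map_mul, map_inv, TA_a, TA_b, TB_a, TB_b, TAi_a, TAi_b, TBi_a, TBi_b, TC_ai, TC_aj,
      TC_bi, TC_bj, n1, n2, n3, n4, n5, n6, n7, n8]
    try group
  have e2_3 : TA h j (a j * (b j)⁻¹) = (b j)⁻¹ := by
    simp only [map_mul, map_inv, TA_a, TA_b, TB_a, TB_b, TAi_a, TAi_b, TBi_a, TBi_b, TC_ai, TC_aj,
      TC_bi, TC_bj, n1, n2, n3, n4, n5, n6, n7, n8]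
    try group
  have e2_4 : TA h j (b j) = b j * a j := by
    simp only [map_mul, map_inv, TA_a, TA_b, TB_a, TB_b, TAi_a, TAi_b, TBi_a, TBi_b, TC_ai, TC_aj,
      TC_bi, TC_bj, n1, n2, n3, n4, n5, n6, n7, n8]
    try group
  have e3_1 : (TB h j)⁻¹ (a i) = a i := by
    simp only [map_mul, map_inv, TA_a, TA_b, TB_a, TB_b, TAi_a, TAi_b, TBi_a, TBi_b, TC_ai, TC_aj,
      TC_bi, TC_bj, n1, n2, n3, n4, n5, n6, n7, n8]
    try group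
  have e3_2 : (TB h j)⁻¹ (b i) = b i := by
    simp only [map_mul, map_inv, TA_a, TA_b, TB_a, TB_b, TAi_a, TAi_b, TBi_a, TBi_b, TC_ai, TC_aj,
      TC_bi, TC_bj, n1, n2, n3, n4, n5, n6, n7, n8]
    try group
  have e3_3 : (TB h j)⁻¹ ((b j)⁻¹) = (b j)⁻¹ := by
    simp only [map_mul, map_inv, TA_a, TA_b, TB_a, TB_b, TAi_a, TAi_b, TBi_a, TBi_b, TC_ai, TC_aj,
      TC_bi, TC_bj, n1, n2, n3, n4, n5, n6, n7, n8]
    try group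
  have e3_4 : (TB h j)⁻¹ (b j * a j) = b j * a j * (b j)⁻¹ := by
    simp only [map_mul, map_inv, TA_a, TA_b, TB_a, TB_b, TAi_a, TAi_b, TBi_a, TBi_b, TC_ai, TC_aj,
      TC_bi, TC_bj, n1, n2, n3, n4, n5, n6, n7, n8]
    try group
  have e4_1 : (TB h j)⁻¹ (a i) = a i := by
    simp only [map_mul, map_inv, TA_a, TA_b, TB_a, TB_b, TAi_a, TAi_b, TBi_a, TBi_b, TC_ai, TC_aj,
      TC_bi, TC_bj, n1, n2, n3, n4, n5, n6, n7, n8]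
    try group
  have e4_2 : (TB h j)⁻¹ (b i) = b i := by
    simp only [map_mul, map_inv, TA_a, TA_b, TB_a, TB_b, TAi_a, TAi_b, TBi_a, TBi_b, TC_ai, TC_aj,
      TC_bi, TC_bj, n1, n2, n3, n4, n5, n6, n7, n8]
    try group
  have e4_3 : (TB h j)⁻¹ ((b j)⁻¹) = (b j)⁻¹ := by
    simp only [map_mul, map_inv, TA_a, TA_b, TB_a, TB_b, TAi_a, TAi_b, TBi_a, TBi_b, TC_ai, TC_aj,
      TC_bi, TC_bj, n1, n2, n3, n4, n5, n6, n7, n8]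
    try group
  have e4_4 : (TB h j)⁻¹ (b j * a j * (b j)⁻¹) = b j * a j * (b j)⁻¹ * (b j)⁻¹ := by
    simp only [map_mul, map_inv, TA_a, TA_b, TB_a, TB_b, TAi_a, TAi_b, TBi_a, TBi_b, TC_ai, TC_aj,
      TC_bi, TC_bj, n1, n2, n3, n4, n5, n6, n7, n8]
    try group
  have e5_1 : TA h j (a i) = a i := by
    simp only [map_mul, map_inv, TA_a, TA_b, TB_a, TB_b, TAi_a, TAi_b, TBi_a, TBi_b, TC_ai, TC_aj,
      TC_bi, TC_bj, n1, n2, n3, n4, n5, n6, n7, n8]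
    try group
  have e5_2 : TA h j (b i) = b i := by
    simp only [map_mul, map_inv, TA_a, TA_b, TB_a, TB_b, TAi_a, TAi_b, TBi_a, TBi_b, TC_ai, TC_aj,
      TC_bi, TC_bj, n1, n2, n3, n4, n5, n6, n7, n8]
    try group
  have e5_3 : TA h j ((b j)⁻¹) = (a j)⁻¹ * (b j)⁻¹ := by
    simp only [map_mul, map_inv, TA_a, TA_b, TB_a, TB_b, TAi_a, TAi_b, TBi_a, TBi_b, TC_ai, TC_aj,
      TC_bi, TC_bj, n1, n2, n3, n4, n5, n6, n7, n8]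
    try group
  have e5_4 : TA h j (b j * a j * (b j)⁻¹ * (b j)⁻¹) = b j * a j * (b j)⁻¹ * (a j)⁻¹ * (b j)⁻¹ := by
    simp only [map_mul, map_inv, TA_a, TA_b, TB_a, TB_b, TAi_a, TAi_b, TBi_a, TBi_b, TC_ai, TC_aj,
      TC_bi, TC_bj, n1, n2, n3, n4, n5, n6, n7, n8]
    try group
  have e6_1 : (TB h j)⁻¹ (a i) = a i := by
    simp only [map_mul, map_inv, TA_a, TA_b, TB_a, TB_b, TAi_a, TAi_b, TBi_a, TBi_b, TC_ai, TC_aj,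
      TC_bi, TC_bj, n1, n2, n3, n4, n5, n6, n7, n8]
    try group
  have e6_2 : (TB h j)⁻¹ (b i) = b i := by
    simp only [map_mul, map_inv, TA_a, TA_b, TB_a, TB_b, TAi_a, TAi_b, TBi_a, TBi_b, TC_ai, TC_aj,
      TC_bi, TC_bj, n1, n2, n3, n4, n5, n6, n7, n8]
    try group
  have e6_3 : (TB h j)⁻¹ ((a j)⁻¹ * (b j)⁻¹) = b j * (a j)⁻¹ * (b j)⁻¹ := by
    simp only [map_mul, map_inv, TA_a, TA_b, TB_a, TB_b, TAi_a, TAi_b, TBi_a, TBi_b, TC_ai, TC_aj,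
      TC_bi, TC_bj, n1, n2, n3, n4, n5, n6, n7, n8]
    try group
  have e6_4 : (TB h j)⁻¹ (b j * a j * (b j)⁻¹ * (a j)⁻¹ * (b j)⁻¹) = b j * a j * (b j)⁻¹ * (a j)⁻¹ * (b j)⁻¹ := by
    simp only [map_mul, map_inv, TA_a, TA_b, TB_a, TB_b, TAi_a, TAi_b, TBi_a, TBi_b, TC_ai, TC_aj,
      TC_bi, TC_bj, n1, n2, n3, n4, n5, n6, n7, n8]
    try group
  have e7_1 : TC h i j hij (a i) = a i * (a j)⁻¹ * b i := by
    simp only [map_mul, map_inv, TA_a, TA_b, TB_a, TB_b, TAi_a, TAi_b, TBi_a, TBi_b, TC_ai, TC_aj,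
      TC_bi, TC_bj, n1, n2, n3, n4, n5, n6, n7, n8]
    try group
  have e7_2 : TC h i j hij (b i) = (b i)⁻¹ * a j * b i * (a j)⁻¹ * b i := by
    simp only [map_mul, map_inv, TA_a, TA_b, TB_a, TB_b, TAi_a, TAi_b, TBi_a, TBi_b, TC_ai, TC_aj,
      TC_bi, TC_bj, n1, n2, n3, n4, n5, n6, n7, n8]
    try group
  have e7_3 : TC h i j hij (b j * (a j)⁻¹ * (b j)⁻¹) = b j * (a j)⁻¹ * (b j)⁻¹ := by
    simp only [map_mul, map_inv, TA_a, TA_b, TB_a, TB_b, TAi_a, TAi_b, TBi_a, TBi_b, TC_ai, TC_aj,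
      TC_bi, TC_bj, n1, n2, n3, n4, n5, n6, n7, n8]
    try group
  have e7_4 : TC h i j hij (b j * a j * (b j)⁻¹ * (a j)⁻¹ * (b j)⁻¹) = b j * a j * (b j)⁻¹ * (b i)⁻¹ * (b j)⁻¹ := by
    simp only [map_mul, map_inv, TA_a, TA_b, TB_a, TB_b, TAi_a, TAi_b, TBi_a, TBi_b, TC_ai, TC_aj,
      TC_bi, TC_bj, n1, n2, n3, n4, n5, n6, n7, n8]
    try group
  have e8_1 : (TA h i)⁻¹ (a i * (a j)⁻¹ * b i) = a i * (a j)⁻¹ * b i * (a i)⁻¹ := by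
    simp only [map_mul, map_inv, TA_a, TA_b, TB_a, TB_b, TAi_a, TAi_b, TBi_a, TBi_b, TC_ai, TC_aj,
      TC_bi, TC_bj, n1, n2, n3, n4, n5, n6, n7, n8]
    try group
  have e8_2 : (TA h i)⁻¹ ((b i)⁻¹ * a j * b i * (a j)⁻¹ * b i) = a i * (b i)⁻¹ * a j * b i * (a i)⁻¹ * (a j)⁻¹ * b i * (a i)⁻¹ := by
    simp only [map_mul, map_inv, TA_a, TA_b, TB_a, TB_b, TAi_a, TAi_b, TBi_a, TBi_b, TC_ai, TC_aj,
      TC_bi, TC_bj, n1, n2, n3, n4, n5, n6, n7, n8]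
    try group
  have e8_3 : (TA h i)⁻¹ (b j * (a j)⁻¹ * (b j)⁻¹) = b j * (a j)⁻¹ * (b j)⁻¹ := by
    simp only [map_mul, map_inv, TA_a, TA_b, TB_a, TB_b, TAi_a, TAi_b, TBi_a, TBi_b, TC_ai, TC_aj,
      TC_bi, TC_bj, n1, n2, n3, n4, n5, n6, n7, n8]
    try group
  have e8_4 : (TA h i)⁻¹ (b j * a j * (b j)⁻¹ * (b i)⁻¹ * (b j)⁻¹) = b j * a j * (b j)⁻¹ * a i * (b i)⁻¹ * (b j)⁻¹ := by
    simp only [map_mul, map_inv, TA_a, TA_b, TB_a, TB_b, TAi_a, TAi_b, TBi_a, TBi_b, TC_ai, TC_aj,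
      TC_bi, TC_bj, n1, n2, n3, n4, n5, n6, n7, n8]
    try group
  have e9_1 : TB h i (a i * (a j)⁻¹ * b i * (a i)⁻¹) = a i * b i * (a j)⁻¹ * (a i)⁻¹ := by
    simp only [map_mul, map_inv, TA_a, TA_b, TB_a, TB_b, TAi_a, TAi_b, TBi_a, TBi_b, TC_ai, TC_aj,
      TC_bi, TC_bj, n1, n2, n3, n4, n5, n6, n7, n8]
    try group
  have e9_2 : TB h i (a i * (b i)⁻¹ * a j * b i * (a i)⁻¹ * (a j)⁻¹ * b i * (a i)⁻¹) = a i * a j * (a i)⁻¹ * (a j)⁻¹ * (a i)⁻¹ := by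
    simp only [map_mul, map_inv, TA_a, TA_b, TB_a, TB_b, TAi_a, TAi_b, TBi_a, TBi_b, TC_ai, TC_aj,
      TC_bi, TC_bj, n1, n2, n3, n4, n5, n6, n7, n8]
    try group
  have e9_3 : TB h i (b j * (a j)⁻¹ * (b j)⁻¹) = b j * (a j)⁻¹ * (b j)⁻¹ := by
    simp only [map_mul, map_inv, TA_a, TA_b, TB_a, TB_b, TAi_a, TAi_b, TBi_a, TBi_b, TC_ai, TC_aj,
      TC_bi, TC_bj, n1, n2, n3, n4, n5, n6, n7, n8]
    try group
  have e9_4 : TB h i (b j * a j * (b j)⁻¹ * a i * (b i)⁻¹ * (b j)⁻¹) = b j * a j * (b j)⁻¹ * a i * (b j)⁻¹ := by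
    simp only [map_mul, map_inv, TA_a, TA_b, TB_a, TB_b, TAi_a, TAi_b, TBi_a, TBi_b, TC_ai, TC_aj,
      TC_bi, TC_bj, n1, n2, n3, n4, n5, n6, n7, n8]
    try group
  have e10_1 : TB h j (a i * b i * (a j)⁻¹ * (a i)⁻¹) = a i * b i * (b j)⁻¹ * (a j)⁻¹ * (a i)⁻¹ := by
    simp only [map_mul, map_inv, TA_a, TA_b, TB_a, TB_b, TAi_a, TAi_b, TBi_a, TBi_b, TC_ai, TC_aj,
      TC_bi, TC_bj, n1, n2, n3, n4, n5, n6, n7, n8]
    try group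
  have e10_2 : TB h j (a i * a j * (a i)⁻¹ * (a j)⁻¹ * (a i)⁻¹) = a i * a j * b j * (a i)⁻¹ * (b j)⁻¹ * (a j)⁻¹ * (a i)⁻¹ := by
    simp only [map_mul, map_inv, TA_a, TA_b, TB_a, TB_b, TAi_a, TAi_b, TBi_a, TBi_b, TC_ai, TC_aj,
      TC_bi, TC_bj, n1, n2, n3, n4, n5, n6, n7, n8]
    try group
  have e10_3 : TB h j (b j * (a j)⁻¹ * (b j)⁻¹) = (a j)⁻¹ * (b j)⁻¹ := by
    simp only [map_mul, map_inv, TA_a, TA_b, TB_a, TB_b, TAi_a, TAi_b, TBi_a, TBi_b, TC_ai, TC_aj,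
      TC_bi, TC_bj, n1, n2, n3, n4, n5, n6, n7, n8]
    try group
  have e10_4 : TB h j (b j * a j * (b j)⁻¹ * a i * (b j)⁻¹) = b j * a j * a i * (b j)⁻¹ := by
    simp only [map_mul, map_inv, TA_a, TA_b, TB_a, TB_b, TAi_a, TAi_b, TBi_a, TBi_b, TC_ai, TC_aj,
      TC_bi, TC_bj, n1, n2, n3, n4, n5, n6, n7, n8]
    try group
  have e11_1 : TC h i j hij (a i * b i * (b j)⁻¹ * (a j)⁻¹ * (a i)⁻¹) = a i * b i * (b j)⁻¹ * (b i)⁻¹ * (a i)⁻¹ := by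
    simp only [map_mul, map_inv, TA_a, TA_b, TB_a, TB_b, TAi_a, TAi_b, TBi_a, TBi_b, TC_ai, TC_aj,
      TC_bi, TC_bj, n1, n2, n3, n4, n5, n6, n7, n8]
    try group
  have e11_2 : TC h i j hij (a i * a j * b j * (a i)⁻¹ * (b j)⁻¹ * (a j)⁻¹ * (a i)⁻¹) = a i * b i * b j * (a i)⁻¹ * (b i)⁻¹ * a j * (b j)⁻¹ * (b i)⁻¹ * (a i)⁻¹ := by
    simp only [map_mul, map_inv, TA_a, TA_b, TB_a, TB_b, TAi_a, TAi_b, TBi_a, TBi_b, TC_ai, TC_aj,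
      TC_bi, TC_bj, n1, n2, n3, n4, n5, n6, n7, n8]
    try group
  have e11_3 : TC h i j hij ((a j)⁻¹ * (b j)⁻¹) = (b i)⁻¹ * (b j)⁻¹ := by
    simp only [map_mul, map_inv, TA_a, TA_b, TB_a, TB_b, TAi_a, TAi_b, TBi_a, TBi_b, TC_ai, TC_aj,
      TC_bi, TC_bj, n1, n2, n3, n4, n5, n6, n7, n8]
    try group
  have e11_4 : TC h i j hij (b j * a j * a i * (b j)⁻¹) = b j * b i * a i * (b j)⁻¹ := by
    simp only [map_mul, map_inv, TA_a, TA_b, TB_a, TB_b, TAi_a, TAi_b, TBi_a, TBi_b, TC_ai, TC_aj,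
      TC_bi, TC_bj, n1, n2, n3, n4, n5, n6, n7, n8]
    try group
  have e12_1 : (TA h i)⁻¹ (a i * b i * (b j)⁻¹ * (b i)⁻¹ * (a i)⁻¹) = a i * b i * (a i)⁻¹ * (b j)⁻¹ * a i * (b i)⁻¹ * (a i)⁻¹ := by
    simp only [map_mul, map_inv, TA_a, TA_b, TB_a, TB_b, TAi_a, TAi_b, TBi_a, TBi_b, TC_ai, TC_aj,
      TC_bi, TC_bj, n1, n2, n3, n4, n5, n6, n7, n8]
    try group
  have e12_2 : (TA h i)⁻¹ (a i * b i * b j * (a i)⁻¹ * (b i)⁻¹ * a j * (b j)⁻¹ * (b i)⁻¹ * (a i)⁻¹) = a i * b i * (a i)⁻¹ * b j * (b i)⁻¹ * a j * (b j)⁻¹ * a i * (b i)⁻¹ * (a i)⁻¹ := by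
    simp only [map_mul, map_inv, TA_a, TA_b, TB_a, TB_b, TAi_a, TAi_b, TBi_a, TBi_b, TC_ai, TC_aj,
      TC_bi, TC_bj, n1, n2, n3, n4, n5, n6, n7, n8]
    try group
  have e12_3 : (TA h i)⁻¹ ((b i)⁻¹ * (b j)⁻¹) = a i * (b i)⁻¹ * (b j)⁻¹ := by
    simp only [map_mul, map_inv, TA_a, TA_b, TB_a, TB_b, TAi_a, TAi_b, TBi_a, TBi_b, TC_ai, TC_aj,
      TC_bi, TC_bj, n1, n2, n3, n4, n5, n6, n7, n8]
    try group
  have e12_4 : (TA h i)⁻¹ (b j * b i * a i * (b j)⁻¹) = b j * b i * (b j)⁻¹ := by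
    simp only [map_mul, map_inv, TA_a, TA_b, TB_a, TB_b, TAi_a, TAi_b, TBi_a, TBi_b, TC_ai, TC_aj,
      TC_bi, TC_bj, n1, n2, n3, n4, n5, n6, n7, n8]
    try group
  have e13_1 : (TA h j)⁻¹ (a i * b i * (a i)⁻¹ * (b j)⁻¹ * a i * (b i)⁻¹ * (a i)⁻¹) = a i * b i * (a i)⁻¹ * a j * (b j)⁻¹ * a i * (b i)⁻¹ * (a i)⁻¹ := by
    simp only [map_mul, map_inv, TA_a, TA_b, TB_a, TB_b, TAi_a, TAi_b, TBi_a, TBi_b, TC_ai, TC_aj,
      TC_bi, TC_bj, n1, n2, n3, n4, n5, n6, n7, n8]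
    try group
  have e13_2 : (TA h j)⁻¹ (a i * b i * (a i)⁻¹ * b j * (b i)⁻¹ * a j * (b j)⁻¹ * a i * (b i)⁻¹ * (a i)⁻¹) = a i * b i * (a i)⁻¹ * b j * (a j)⁻¹ * (b i)⁻¹ * a j * a j * (b j)⁻¹ * a i * (b i)⁻¹ * (a i)⁻¹ := by
    simp only [map_mul, map_inv, TA_a, TA_b, TB_a, TB_b, TAi_a, TAi_b, TBi_a, TBi_b, TC_ai, TC_aj,
      TC_bi, TC_bj, n1, n2, n3, n4, n5, n6, n7, n8]
    try group
  have e13_3 : (TA h j)⁻¹ (a i * (b i)⁻¹ * (b j)⁻¹) = a i * (b i)⁻¹ * a j * (b j)⁻¹ := by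
    simp only [map_mul, map_inv, TA_a, TA_b, TB_a, TB_b, TAi_a, TAi_b, TBi_a, TBi_b, TC_ai, TC_aj,
      TC_bi, TC_bj, n1, n2, n3, n4, n5, n6, n7, n8]
    try group
  have e13_4 : (TA h j)⁻¹ (b j * b i * (b j)⁻¹) = b j * (a j)⁻¹ * b i * a j * (b j)⁻¹ := by
    simp only [map_mul, map_inv, TA_a, TA_b, TB_a, TB_b, TAi_a, TAi_b, TBi_a, TBi_b, TC_ai, TC_aj,
      TC_bi, TC_bj, n1, n2, n3, n4, n5, n6, n7, n8]
    try group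
  have e14_1 : TB h j (a i * b i * (a i)⁻¹ * a j * (b j)⁻¹ * a i * (b i)⁻¹ * (a i)⁻¹) = a i * b i * (a i)⁻¹ * a j * a i * (b i)⁻¹ * (a i)⁻¹ := by
    simp only [map_mul, map_inv, TA_a, TA_b, TB_a, TB_b, TAi_a, TAi_b, TBi_a, TBi_b, TC_ai, TC_aj,
      TC_bi, TC_bj, n1, n2, n3, n4, n5, n6, n7, n8]
    try group
  have e14_2 : TB h j (a i * b i * (a i)⁻¹ * b j * (a j)⁻¹ * (b i)⁻¹ * a j * a j * (b j)⁻¹ * a i * (b i)⁻¹ * (a i)⁻¹) = a i * b i * (a i)⁻¹ * (a j)⁻¹ * (b i)⁻¹ * a j * b j * a j * a i * (b i)⁻¹ * (a i)⁻¹ := by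
    simp only [map_mul, map_inv, TA_a, TA_b, TB_a, TB_b, TAi_a, TAi_b, TBi_a, TBi_b, TC_ai, TC_aj,
      TC_bi, TC_bj, n1, n2, n3, n4, n5, n6, n7, n8]
    try group
  have e14_3 : TB h j (a i * (b i)⁻¹ * a j * (b j)⁻¹) = a i * (b i)⁻¹ * a j := by
    simp only [map_mul, map_inv, TA_a, TA_b, TB_a, TB_b, TAi_a, TAi_b, TBi_a, TBi_b, TC_ai, TC_aj,
      TC_bi, TC_bj, n1, n2, n3, n4, n5, n6, n7, n8]
    try group
  have e14_4 : TB h j (b j * (a j)⁻¹ * b i * a j * (b j)⁻¹) = (a j)⁻¹ * b i * a j := by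
    simp only [map_mul, map_inv, TA_a, TA_b, TB_a, TB_b, TAi_a, TAi_b, TBi_a, TBi_b, TC_ai, TC_aj,
      TC_bi, TC_bj, n1, n2, n3, n4, n5, n6, n7, n8]
    try group
  have e15_1 : TC h i j hij (a i * b i * (a i)⁻¹ * a j * a i * (b i)⁻¹ * (a i)⁻¹) = a i * b i * (a i)⁻¹ * (b i)⁻¹ * a j * b i * a i * (b i)⁻¹ * (a i)⁻¹ := by
    simp only [map_mul, map_inv, TA_a, TA_b, TB_a, TB_b, TAi_a, TAi_b, TBi_a, TBi_b, TC_ai, TC_aj,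
      TC_bi, TC_bj, n1, n2, n3, n4, n5, n6, n7, n8]
    try group
  have e15_2 : TC h i j hij (a i * b i * (a i)⁻¹ * (a j)⁻¹ * (b i)⁻¹ * a j * b j * a j * a i * (b i)⁻¹ * (a i)⁻¹) = a i * b i * (a i)⁻¹ * (b i)⁻¹ * b j * b i * a i * (b i)⁻¹ * (a i)⁻¹ := by
    simp only [map_mul, map_inv, TA_a, TA_b, TB_a, TB_b, TAi_a, TAi_b, TBi_a, TBi_b, TC_ai, TC_aj,
      TC_bi, TC_bj, n1, n2, n3, n4, n5, n6, n7, n8]
    try group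
  have e15_3 : TC h i j hij (a i * (b i)⁻¹ * a j) = a i := by
    simp only [map_mul, map_inv, TA_a, TA_b, TB_a, TB_b, TAi_a, TAi_b, TBi_a, TBi_b, TC_ai, TC_aj,
      TC_bi, TC_bj, n1, n2, n3, n4, n5, n6, n7, n8]
    try group
  have e15_4 : TC h i j hij ((a j)⁻¹ * b i * a j) = b i := by
    simp only [map_mul, map_inv, TA_a, TA_b, TB_a, TB_b, TAi_a, TAi_b, TBi_a, TBi_b, TC_ai, TC_aj,
      TC_bi, TC_bj, n1, n2, n3, n4, n5, n6, n7, n8]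
    try group
  let σ : MulAut G := TC h i j hij * TB h j * (TA h j)⁻¹ * (TA h i)⁻¹ * TC h i j hij * TB h j * TB h i * (TA h i)⁻¹ * TC h i j hij * (TB h j)⁻¹ * TA h j * (TB h j)⁻¹ * (TB h j)⁻¹ * TA h j * (TB h j)⁻¹
  have hap : ∀ z, σ z = TC h i j hij (TB h j ((TA h j)⁻¹ ((TA h i)⁻¹ (TC h i j hij (TB h j (TB h i ((TA h i)⁻¹ (TC h i j hij ((TB h j)⁻¹ (TA h j ((TB h j)⁻¹ ((TB h j)⁻¹ (TA h j ((TB h j)⁻¹ (z))))))))))))))) := fun z => rfl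
  have f1 : σ (a i) = a i * b i * (a i)⁻¹ * (b i)⁻¹ * a j * b i * a i * (b i)⁻¹ * (a i)⁻¹ := by
    rw [hap, e1_1, e2_1, e3_1, e4_1, e5_1, e6_1, e7_1, e8_1, e9_1, e10_1, e11_1, e12_1, e13_1, e14_1, e15_1]
  have f2 : σ (b i) = a i * b i * (a i)⁻¹ * (b i)⁻¹ * b j * b i * a i * (b i)⁻¹ * (a i)⁻¹ := by
    rw [hap, e1_2, e2_2, e3_2, e4_2, e5_2, e6_2, e7_2, e8_2, e9_2, e10_2, e11_2, e12_2, e13_2, e14_2, e15_2]
  have f3 : σ (a j) = a i := by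
    rw [hap, e1_3, e2_3, e3_3, e4_3, e5_3, e6_3, e7_3, e8_3, e9_3, e10_3, e11_3, e12_3, e13_3, e14_3, e15_3]
  have f4 : σ (b j) = b i := by
    rw [hap, e1_4, e2_4, e3_4, e4_4, e5_4, e6_4, e7_4, e8_4, e9_4, e10_4, e11_4, e12_4, e13_4, e14_4, e15_4]
  have mA : ∀ k : Fin m, (i : ℕ) ≤ k → (k : ℕ) < i + 2 → TA h k ∈ MR h i (i + 2) :=
    fun k h1 h2 => TA_mem h k h1 h2
  have mB : ∀ k : Fin m, (i : ℕ) ≤ k → (k : ℕ) < i + 2 → TB h k ∈ MR h i (i + 2) :=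
    fun k h1 h2 => TB_mem h k h1 h2
  have A1 := mA i le_rfl (by omega)
  have A2 := mA j (by omega) (by omega)
  have B1 := mB i le_rfl (by omega)
  have B2 := mB j (by omega) (by omega)
  have CC : TC h i j hij ∈ MR h i (i + 2) := TC_mem h i j hij le_rfl (by omega)
  have hσ : σ ∈ MR h i (i + 2) := by
    simp only [σ]
    repeat' apply Subgroup.mul_mem
    all_goals first
      | exact A1 | exact A2 | exact B1 | exact B2 | exact CC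
      | exact Subgroup.inv_mem _ A1 | exact Subgroup.inv_mem _ A2
      | exact Subgroup.inv_mem _ B1 | exact Subgroup.inv_mem _ B2
  refine ⟨σ, hσ, f3, f4, ?_, ?_, ?_⟩
  · rw [f1]; group
  · rw [f2]; group
  · intro k h1 h2
    have h3 : (k : ℕ) < i ∨ (i : ℕ) + 2 ≤ k := by
      have h4 : (k : ℕ) ≠ i := fun hk => h1 (Fin.ext hk)
      have h5 : (k : ℕ) ≠ j := fun hk => h2 (Fin.ext hk)
      omega
    have h6 := MR_fix h hσ k h3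
    rwa [ex_val, ex_val] at h6

end

end Pool.MP_59b15d_al.H60G
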