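import Mathlib
import Pool.Agent.H.MP_59b15d_al.h60g.Sw

set_option autoImplicit false

namespace Pool.MP_59b15d_al.H60G

open Pool.MP_59b15d_al.H24T Pool.MP_59b15d_al.H76R Pool.MP_59b15d_al.H73E

section

variable {m : ℕ} {G : Type*} [Group G] {a b : Fin m → G}

/-- The swap in terms of `ex`. -/
theorem exists_swap' (h : IsSurf a b) (i : ℕ) (hi : i + 1 < m) :
    ∃ σ ∈ MR h i (i + 2), (σ (ex a (i + 1)) = ex a i ∧ σ (ex b (i + 1)) = ex b i) ∧
      σ (ex a i) = cm a b i * ex a (i + 1) * (cm a b i)⁻¹ ∧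
      σ (ex b i) = cm a b i * ex b (i + 1) * (cm a b i)⁻¹ := by
  obtain ⟨σ, h1, h2, h3, h4, h5, -⟩ := exists_swap h ⟨i, by omega⟩ ⟨i + 1, hi⟩ rfl
  refine ⟨σ, h1, ⟨?_, ?_⟩, ?_, ?_⟩
  · rw [ex_lt a hi, ex_lt a (by omega : i < m), h2]
  · rw [ex_lt b hi, ex_lt b (by omega : i < m), h3]
  · rw [cm, ex_lt a hi, ex_lt a (by omega : i < m), ex_lt b (by omega : i < m), h4]
  · rw [cm, ex_lt b hi, ex_lt a (by omega : i < m), ex_lt b (by omega : i < m), h5]

/-- Moving the handle `q + p` to the place `q`. -/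
theorem exists_mu (h : IsSurf a b) (q p : ℕ) (hqp : q + p < m) :
    ∃ μ ∈ MR h q (q + p + 1), (μ (ex a (q + p)) = ex a q ∧ μ (ex b (q + p)) = ex b q) ∧
      ∀ k, k < p → μ (ex a (q + k)) = cm a b q * ex a (q + k + 1) * (cm a b q)⁻¹ ∧
        μ (ex b (q + k)) = cm a b q * ex b (q + k + 1) * (cm a b q)⁻¹ := by
  induction p with
  | zero => exact ⟨1, Subgroup.one_mem _, ⟨rfl, rfl⟩, fun k hk => by omega⟩
  | succ p ih =>
    obtain ⟨μ, h1, h2, h3⟩ := ih (by omega)
    obtain ⟨σ, s1, s2, s3, s4⟩ := exists_swap' h (q + p) (by omega)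
    have hfix : ∀ k, q + p < k → μ (ex a k) = ex a k ∧ μ (ex b k) = ex b k :=
      fun k hk => MR_fix h h1 k (Or.inr (by omega))
    have hcm : μ (cm a b (q + p)) = cm a b q := by
      rw [cm, cm]
      simp only [map_mul, map_inv, h2.1, h2.2]
    refine ⟨μ * σ, Subgroup.mul_mem _ (MR_mono h le_rfl (by omega) h1)
      (MR_mono h (by omega) (by omega) s1), ⟨?_, ?_⟩, ?_⟩
    · rw [MulAut.mul_apply, ← add_assoc, s2.1, h2.1]
    · rw [MulAut.mul_apply, ← add_assoc, s2.2, h2.2]
    · intro k hk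
      rw [MulAut.mul_apply, MulAut.mul_apply]
      by_cases hkp : k = p
      · subst hkp
        rw [s3, s4]
        simp only [map_mul, map_inv, hcm, (hfix (q + k + 1) (by omega)).1,
          (hfix (q + k + 1) (by omega)).2]
        exact ⟨trivial, trivial⟩
      · have h4 := MR_fix h s1 (q + k) (Or.inl (by omega))
        rw [h4.1, h4.2]
        exact h3 k (by omega)

/-- Exchange of the first `p` handles with the next `q` handles. -/
theorem exists_beta (h : IsSurf a b) (p q : ℕ) (hpq : p + q ≤ m) :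
    ∃ β ∈ MR h 0 (p + q),
      (∀ k, k < p → β (ex a k) = DD a b q * ex a (q + k) * (DD a b q)⁻¹ ∧
        β (ex b k) = DD a b q * ex b (q + k) * (DD a b q)⁻¹) ∧
      ∀ k, k < q → β (ex a (p + k)) = ex a k ∧ β (ex b (p + k)) = ex b k := by
  induction q with
  | zero =>
    refine ⟨1, Subgroup.one_mem _, fun k hk => ?_, fun k hk => by omega⟩
    simp [DD]
  | succ q ih =>
    obtain ⟨β, h1, h2, h3⟩ := ih (by omega)
    obtain ⟨μ, m1, m2, m3⟩ := exists_mu h q p (by omega)
    have hfix : ∀ k, k < q → μ (ex a k) = ex a k ∧ μ (ex b k) = ex b k :=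
      fun k hk => MR_fix h m1 k (Or.inl hk)
    have hD : μ (DD a b q) = DD a b q := DD_fix q hfix
    refine ⟨μ * β, Subgroup.mul_mem _ (MR_mono h (by omega) (by omega) m1)
      (MR_mono h le_rfl (by omega) h1), ?_, ?_⟩
    · intro k hk
      rw [MulAut.mul_apply, MulAut.mul_apply, (h2 k hk).1, (h2 k hk).2]
      simp only [map_mul, map_inv, hD, (m3 k hk).1, (m3 k hk).2, DD_succ]
      have e : q + 1 + k = q + k + 1 := by omega
      rw [e]
      constructor <;> group
    · intro k hk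
      rw [MulAut.mul_apply, MulAut.mul_apply]
      by_cases hkq : k = q
      · subst hkq
        have h4 := MR_fix h h1 (p + k) (Or.inr le_rfl)
        rw [h4.1, h4.2, add_comm p k]
        exact m2
      · rw [(h3 k (by omega)).1, (h3 k (by omega)).2]
        exact hfix k (by omega)

end

end Pool.MP_59b15d_al.H60G
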