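import Mathlib
import Pool.Agent.H.MP_59b15d_al.h60g.Bl

set_option autoImplicit false

namespace Pool.MP_59b15d_al.H60G

open Pool.MP_59b15d_al.H24T Pool.MP_59b15d_al.H76R Pool.MP_59b15d_al.H73E

section

variable {m : ℕ} {G : Type*} [Group G] {a b : Fin m → G}

/-- The twist about the boundary of a handle. -/
theorem exists_handle (h : IsSurf a b) (k : ℕ) (hk : k < m) :
    ∃ T ∈ MR h k (k + 1), T (ex a k) = cm a b k * ex a k * (cm a b k)⁻¹ ∧
      T (ex b k) = cm a b k * ex b k * (cm a b k)⁻¹ := by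
  rw [cm, ex_lt a hk, ex_lt b hk]
  set i : Fin m := ⟨k, hk⟩ with hi
  let ι : MulAut G := TA h i * (TB h i)⁻¹ * TA h i * TA h i * (TB h i)⁻¹ * TA h i
  have hap : ∀ z, ι z = TA h i ((TB h i)⁻¹ (TA h i (TA h i ((TB h i)⁻¹ (TA h i z))))) :=
    fun z => rfl
  have e1 : ι (a i) = b i * (a i)⁻¹ * (b i)⁻¹ := by
    rw [hap]
    simp only [TA_a, TBi_a, TBi_b, TA_b, map_mul, map_inv]
    group
  have e2 : ι (b i) = b i * a i * (b i)⁻¹ * (a i)⁻¹ * (b i)⁻¹ := by
    rw [hap]
    simp only [TA_a, TBi_a, TBi_b, TA_b, map_mul, map_inv]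
    group
  have hκ : ι (a i * b i * (a i)⁻¹ * (b i)⁻¹) = a i * b i * (a i)⁻¹ * (b i)⁻¹ := by
    simp only [map_mul, map_inv, e1, e2]
    group
  have e5 : ι (ι (a i)) = (a i * b i * (a i)⁻¹ * (b i)⁻¹)⁻¹ * a i
      * (a i * b i * (a i)⁻¹ * (b i)⁻¹) := by
    rw [e1]
    simp only [map_mul, map_inv, e1, e2]
    group
  have e6 : ι (ι (b i)) = (a i * b i * (a i)⁻¹ * (b i)⁻¹)⁻¹ * b i
      * (a i * b i * (a i)⁻¹ * (b i)⁻¹) := by
    rw [e2]
    simp only [map_mul, map_inv, e1, e2]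
    group
  have hA : TA h i ∈ MR h k (k + 1) := TA_mem h i le_rfl (Nat.lt_succ_self k)
  have hB : TB h i ∈ MR h k (k + 1) := TB_mem h i le_rfl (Nat.lt_succ_self k)
  have hι : ι ∈ MR h k (k + 1) :=
    mul_mem (mul_mem (mul_mem (mul_mem (mul_mem hA (inv_mem hB)) hA) hA) (inv_mem hB)) hA
  refine ⟨(ι * ι)⁻¹, inv_mem (mul_mem hι hι), ?_, ?_⟩
  · have h1 : (ι * ι) ((a i * b i * (a i)⁻¹ * (b i)⁻¹) * a i *
        (a i * b i * (a i)⁻¹ * (b i)⁻¹)⁻¹) = a i := by
      change ι (ι _) = _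
      rw [map_mul, map_mul, map_mul, map_mul, map_inv, map_inv, hκ, hκ, e5]
      group
    conv_lhs => rw [← h1]
    rw [MulAut.inv_apply_self]
  · have h1 : (ι * ι) ((a i * b i * (a i)⁻¹ * (b i)⁻¹) * b i *
        (a i * b i * (a i)⁻¹ * (b i)⁻¹)⁻¹) = b i := by
      change ι (ι _) = _
      rw [map_mul, map_mul, map_mul, map_mul, map_inv, map_inv, hκ, hκ, e6]
      group
    conv_lhs => rw [← h1]
    rw [MulAut.inv_apply_self]

/-- The twist about the boundary of the first `k` handles. -/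
theorem exists_bdt (h : IsSurf a b) (k : ℕ) (hk : k ≤ m) :
    ∃ T ∈ MR h 0 k, ∀ j, j < k → T (ex a j) = DD a b k * ex a j * (DD a b k)⁻¹ ∧
      T (ex b j) = DD a b k * ex b j * (DD a b k)⁻¹ := by
  induction k with
  | zero => exact ⟨1, Subgroup.one_mem _, fun j hj => by omega⟩
  | succ k ih =>
    obtain ⟨T, t1, t2⟩ := ih (by omega)
    obtain ⟨τ, r1, r2, r3⟩ := exists_handle h k (by omega)
    obtain ⟨β, b1, b2, b3⟩ := exists_beta h k 1 (by omega)
    obtain ⟨γ, c1, c2, c3⟩ := exists_beta h 1 k (by omega)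
    have hT : T (ex a k) = ex a k ∧ T (ex b k) = ex b k := MR_fix h t1 k (Or.inr le_rfl)
    have hTc : T (cm a b k) = cm a b k := cm_fix k hT
    -- the product of the two exchanges
    have hD1 : DD a b 1 = cm a b 0 := by rw [DD_succ, DD_zero, one_mul]
    have g0 : γ (ex a 0) = DD a b k * ex a k * (DD a b k)⁻¹ ∧
        γ (ex b 0) = DD a b k * ex b k * (DD a b k)⁻¹ := by
      have := c2 0 (by omega)
      simpa using this
    have gc : γ (cm a b 0) = DD a b k * cm a b k * (DD a b k)⁻¹ := by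
      rw [cm, cm]
      simp only [map_mul, map_inv, g0.1, g0.2]
      group
    have hB : ∀ j, j < k → γ (β (ex a j)) = (DD a b k * cm a b k * (DD a b k)⁻¹) * ex a j *
        (DD a b k * cm a b k * (DD a b k)⁻¹)⁻¹ ∧
        γ (β (ex b j)) = (DD a b k * cm a b k * (DD a b k)⁻¹) * ex b j *
        (DD a b k * cm a b k * (DD a b k)⁻¹)⁻¹ := by
      intro j hj
      rw [(b2 j hj).1, (b2 j hj).2, hD1]
      simp only [map_mul, map_inv, gc, (c3 j hj).1, (c3 j hj).2]
      exact ⟨trivial, trivial⟩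
    have hBk : γ (β (ex a k)) = DD a b k * ex a k * (DD a b k)⁻¹ ∧
        γ (β (ex b k)) = DD a b k * ex b k * (DD a b k)⁻¹ := by
      have h1 := b3 0 (by omega)
      rw [add_zero] at h1
      rw [h1.1, h1.2]
      exact g0
    have hBD : γ (β (DD a b k)) = (DD a b k * cm a b k * (DD a b k)⁻¹) * DD a b k *
        (DD a b k * cm a b k * (DD a b k)⁻¹)⁻¹ :=
      DD_conj (f := γ * β) k hB
    have hBc : γ (β (cm a b k)) = DD a b k * cm a b k * (DD a b k)⁻¹ := by
      rw [cm]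
      simp only [map_mul, map_inv, hBk.1, hBk.2]
      group
    refine ⟨γ * β * T * τ, ?_, ?_⟩
    · refine mul_mem (mul_mem (mul_mem ?_ ?_) ?_) ?_
      · exact MR_mono h le_rfl (by omega) c1
      · exact MR_mono h le_rfl (by omega) b1
      · exact MR_mono h le_rfl (by omega) t1
      · exact MR_mono h (by omega) (by omega) r1
    · intro j hj
      change γ (β (T (τ (ex a j)))) = _ ∧ γ (β (T (τ (ex b j)))) = _
      by_cases hjk : j = k
      · subst hjk
        rw [r2, r3]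
        simp only [map_mul, map_inv, hTc, hT.1, hT.2, hBc, hBk.1, hBk.2, DD_succ]
        constructor <;> group
      · have hjk' : j < k := by omega
        have h1 := MR_fix h r1 j (Or.inl hjk')
        rw [h1.1, h1.2, (t2 j hjk').1, (t2 j hjk').2]
        simp only [map_mul, map_inv, hBD, (hB j hjk').1, (hB j hjk').2, DD_succ]
        constructor <;> group

end

end Pool.MP_59b15d_al.H60G
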