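import Mathlib
import Pool.Agent.H.MP_59b15d_al.h60g.Bd
import Pool.Agent.H.MP_59b15d_al.h73e.Xa

set_option autoImplicit false

namespace Pool.MP_59b15d_al.H60G

open Pool.MP_59b15d_al.H24T Pool.MP_59b15d_al.H76R Pool.MP_59b15d_al.H73E
open FreeGroup (of)

section

variable {m : ℕ} {G : Type*} [Group G] {a b : Fin m → G}

/-- The group generated by the twists of the free group. -/
def FT (g : ℕ) : Subgroup (MulAut (Fr g)) :=
  Subgroup.closure {T | (∃ i, T = FA i) ∨ (∃ i, T = FB i) ∨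
    ∃ (i j : Fin g) (hij : (j : ℕ) = i + 1), T = FC i j (ne_of_hij hij)}

/-- `f` acts on the first `g` handles as `f'` and fixes the other ones. -/
structure Rel (a b : Fin m → G) (g : ℕ) (hg : g ≤ m) (f' : MulAut (Fr g)) (f : MulAut G) :
    Prop where
  on : ∀ z, f (subHom a b g hg z) = subHom a b g hg (f' z)
  off : ∀ k, g ≤ k → f (ex a k) = ex a k ∧ f (ex b k) = ex b k

variable {g : ℕ} {hg : g ≤ m}

theorem Rel.one (a b : Fin m → G) (g : ℕ) (hg : g ≤ m) : Rel a b g hg 1 1 :=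
  ⟨fun _ => rfl, fun _ _ => ⟨rfl, rfl⟩⟩

theorem Rel.mul {f' k' : MulAut (Fr g)} {f k : MulAut G} (h1 : Rel a b g hg f' f)
    (h2 : Rel a b g hg k' k) : Rel a b g hg (f' * k') (f * k) :=
  ⟨fun z => by rw [MulAut.mul_apply, h2.on, h1.on, MulAut.mul_apply],
    fun l hl => by
      rw [MulAut.mul_apply, MulAut.mul_apply, (h2.off l hl).1, (h2.off l hl).2]
      exact h1.off l hl⟩

theorem Rel.inv {f' : MulAut (Fr g)} {f : MulAut G} (h1 : Rel a b g hg f' f) :
    Rel a b g hg f'⁻¹ f⁻¹ := by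
  refine ⟨fun z => ?_, fun l hl => ⟨?_, ?_⟩⟩
  · have h2 := h1.on (f'⁻¹ z)
    rw [MulAut.apply_inv_self] at h2
    rw [← h2, MulAut.inv_apply_self]
  · have h2 := (h1.off l hl).1
    conv_lhs => rw [← h2]
    rw [MulAut.inv_apply_self]
  · have h2 := (h1.off l hl).2
    conv_lhs => rw [← h2]
    rw [MulAut.inv_apply_self]

theorem Rel.zpow {f' : MulAut (Fr g)} {f : MulAut G} (h1 : Rel a b g hg f' f) (j : ℤ) :
    Rel a b g hg (f' ^ j) (f ^ j) := by
  induction j using Int.induction_on with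
  | zero => rw [zpow_zero, zpow_zero]; exact Rel.one a b g hg
  | succ j ih => rw [zpow_add_one, zpow_add_one]; exact ih.mul h1
  | pred j ih => rw [zpow_sub_one, zpow_sub_one]; exact ih.mul h1.inv

theorem subHom_a (a b : Fin m → G) (hg : g ≤ m) (k : Fin g) :
    subHom a b g hg (of (Sum.inl k)) = a (Fin.castLE hg k) := by simp [subHom]

theorem subHom_b (a b : Fin m → G) (hg : g ≤ m) (k : Fin g) :
    subHom a b g hg (of (Sum.inr k)) = b (Fin.castLE hg k) := by simp [subHom]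

theorem on_of (f' : MulAut (Fr g)) (f : MulAut G)
    (h1 : ∀ k, f (a (Fin.castLE hg k)) = subHom a b g hg (f' (of (Sum.inl k))))
    (h2 : ∀ k, f (b (Fin.castLE hg k)) = subHom a b g hg (f' (of (Sum.inr k)))) (z : Fr g) :
    f (subHom a b g hg z) = subHom a b g hg (f' z) := by
  have h3 : f.toMonoidHom.comp (subHom a b g hg) = (subHom a b g hg).comp f'.toMonoidHom := by
    ext i
    rcases i with k | k
    · change f (subHom a b g hg (of (Sum.inl k))) = subHom a b g hg (f' (of (Sum.inl k)))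
      rw [subHom_a, h1]
    · change f (subHom a b g hg (of (Sum.inr k))) = subHom a b g hg (f' (of (Sum.inr k)))
      rw [subHom_b, h2]
  exact DFunLike.congr_fun h3 z

theorem castLE_ne (hg : g ≤ m) {k i : Fin g} (hk : k ≠ i) : Fin.castLE hg k ≠ Fin.castLE hg i :=
  fun h => hk (Fin.castLE_injective hg h)

theorem rel_TA (h : IsSurf a b) (hg : g ≤ m) (i : Fin g) :
    Rel a b g hg (FA i) (TA h (Fin.castLE hg i)) := by
  refine ⟨on_of _ _ ?_ ?_, fun k hk => ?_⟩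
  · intro k
    rw [TA_a, FA_ne i (by simp), subHom_a]
  · intro k
    by_cases hk : k = i
    · subst hk
      rw [TA_b, FA_self, map_mul, subHom_a, subHom_b]
    · rw [TA_b_ne h (castLE_ne hg hk), FA_ne i (by simp [hk]), subHom_b]
  · exact MR_fix h (TA_mem h (Fin.castLE hg i) (Nat.zero_le _) i.2) k (Or.inr hk)

theorem rel_TB (h : IsSurf a b) (hg : g ≤ m) (i : Fin g) :
    Rel a b g hg (FB i) (TB h (Fin.castLE hg i)) := by
  refine ⟨on_of _ _ ?_ ?_, fun k hk => ?_⟩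
  · intro k
    by_cases hk : k = i
    · subst hk
      rw [TB_a, FB_self, map_mul, subHom_a, subHom_b]
    · rw [TB_a_ne h (castLE_ne hg hk), FB_ne i (by simp [hk]), subHom_a]
  · intro k
    rw [TB_b, FB_ne i (by simp), subHom_b]
  · exact MR_fix h (TB_mem h (Fin.castLE hg i) (Nat.zero_le _) i.2) k (Or.inr hk)

theorem rel_TC (h : IsSurf a b) (hg : g ≤ m) {i j : Fin g} (hij : (j : ℕ) = i + 1) :
    Rel a b g hg (FC i j (ne_of_hij hij)) (TC h (Fin.castLE hg i) (Fin.castLE hg j) hij) := by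
  refine ⟨on_of _ _ ?_ ?_, fun k hk => ?_⟩
  · intro k
    by_cases hk : k = i
    · subst hk
      rw [TC_ai, FC_ai]
      simp only [map_mul, map_inv, subHom_a, subHom_b]
    · by_cases hk2 : k = j
      · subst hk2
        rw [TC_aj, FC_aj]
        simp only [map_mul, map_inv, subHom_a, subHom_b]
      · rw [TC_a_ne h _ (castLE_ne hg hk) (castLE_ne hg hk2), FC_a_ne i j _ hk hk2, subHom_a]
  · intro k
    by_cases hk : k = i
    · subst hk
      rw [TC_bi, FC_bi]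
      simp only [map_mul, map_inv, subHom_a, subHom_b]
    · by_cases hk2 : k = j
      · subst hk2
        rw [TC_bj, FC_bj]
        simp only [map_mul, map_inv, subHom_a, subHom_b]
      · rw [TC_b_ne h _ (castLE_ne hg hk) (castLE_ne hg hk2), FC_b_ne i j _ hk hk2, subHom_b]
  · exact MR_fix h (TC_mem h (Fin.castLE hg i) (Fin.castLE hg j) hij (Nat.zero_le _) j.2) k
      (Or.inr hk)

theorem rel_of_MR (h : IsSurf a b) (hg : g ≤ m) (f : MulAut G) (hf : f ∈ MR h 0 g) :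
    ∃ f' ∈ FT g, Rel a b g hg f' f := by
  have hcs : ∀ k : Fin m, (k : ℕ) < g → ∃ i : Fin g, k = Fin.castLE hg i :=
    fun k hk => ⟨⟨k, hk⟩, rfl⟩
  refine Subgroup.closure_induction (p := fun f _ => ∃ f' ∈ FT g, Rel a b g hg f' f)
    ?_ ?_ ?_ ?_ hf
  · rintro T (⟨i, _, hi, rfl⟩ | ⟨i, _, hi, rfl⟩ | ⟨i, j, hij, _, hj, rfl⟩)
    · obtain ⟨i', rfl⟩ := hcs i hi
      exact ⟨_, Subgroup.subset_closure (Or.inl ⟨i', rfl⟩), rel_TA h hg i'⟩
    · obtain ⟨i', rfl⟩ := hcs i hi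
      exact ⟨_, Subgroup.subset_closure (Or.inr (Or.inl ⟨i', rfl⟩)), rel_TB h hg i'⟩
    · obtain ⟨j', rfl⟩ := hcs j hj
      obtain ⟨i', rfl⟩ := hcs i (by omega)
      have hij' : (j' : ℕ) = i' + 1 := hij
      exact ⟨_, Subgroup.subset_closure (Or.inr (Or.inr ⟨i', j', hij', rfl⟩)), rel_TC h hg hij'⟩
  · exact ⟨1, Subgroup.one_mem _, Rel.one a b g hg⟩
  · rintro s t _ _ ⟨s', h1, h2⟩ ⟨t', h3, h4⟩
    exact ⟨_, Subgroup.mul_mem _ h1 h3, h2.mul h4⟩
  · rintro s _ ⟨s', h1, h2⟩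
    exact ⟨_, Subgroup.inv_mem _ h1, h2.inv⟩

theorem MR_of_rel (h : IsSurf a b) (hg : g ≤ m) (f' : MulAut (Fr g)) (hf : f' ∈ FT g) :
    ∃ f ∈ MR h 0 g, Rel a b g hg f' f := by
  refine Subgroup.closure_induction (p := fun f' _ => ∃ f ∈ MR h 0 g, Rel a b g hg f' f)
    ?_ ?_ ?_ ?_ hf
  · rintro T (⟨i, rfl⟩ | ⟨i, rfl⟩ | ⟨i, j, hij, rfl⟩)
    · exact ⟨_, TA_mem h (Fin.castLE hg i) (Nat.zero_le _) i.2, rel_TA h hg i⟩
    · exact ⟨_, TB_mem h (Fin.castLE hg i) (Nat.zero_le _) i.2, rel_TB h hg i⟩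
    · exact ⟨_, TC_mem h (Fin.castLE hg i) (Fin.castLE hg j) hij (Nat.zero_le _) j.2,
        rel_TC h hg hij⟩
  · exact ⟨1, Subgroup.one_mem _, Rel.one a b g hg⟩
  · rintro s t _ _ ⟨s', h1, h2⟩ ⟨t', h3, h4⟩
    exact ⟨_, Subgroup.mul_mem _ h1 h3, h2.mul h4⟩
  · rintro s _ ⟨s', h1, h2⟩
    exact ⟨_, Subgroup.inv_mem _ h1, h2.inv⟩

theorem subHom_dl_le (a b : Fin m → G) (hg : g ≤ m) (k : ℕ) (hk : k ≤ g) :
    subHom a b g hg (dl k) = DD a b k := by
  induction k with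
  | zero => rw [dl, map_one, DD_zero]
  | succ k ih =>
    rw [dl_succ k (by omega), map_mul, ih (by omega), DD_succ, kk, cm]
    simp only [map_mul, map_inv, subHom_a, subHom_b]
    rw [ex_lt a (by omega : k < m), ex_lt b (by omega : k < m)]
    rfl

theorem subHom_dl (a b : Fin m → G) (hg : g ≤ m) : subHom a b g hg (dl g) = DD a b g :=
  subHom_dl_le a b hg g le_rfl

/-- The boundary twist. -/
theorem exists_rel_bd (h : IsSurf a b) (hg : g ≤ m) :
    ∃ T ∈ MR h 0 g, Rel a b g hg (MulAut.conj (dl g)) T := by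
  obtain ⟨T, t1, t2⟩ := exists_bdt h g hg
  refine ⟨T, t1, on_of _ _ ?_ ?_, fun k hk => MR_fix h t1 k (Or.inr hk)⟩
  · intro k
    have h1 := (t2 k k.2).1
    rw [ex_lt a (by omega : (k : ℕ) < m)] at h1
    rw [MulAut.conj_apply, map_mul, map_mul, map_inv, subHom_dl, subHom_a]
    exact h1
  · intro k
    have h1 := (t2 k k.2).2
    rw [ex_lt b (by omega : (k : ℕ) < m)] at h1
    rw [MulAut.conj_apply, map_mul, map_mul, map_inv, subHom_dl, subHom_b]
    exact h1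

/-- The inclusion of the first `g` handles into the first `l` handles. -/
def inc' (g l : ℕ) (hgl : g ≤ l) : Fr g →* Fr l :=
  FreeGroup.map (Sum.map (Fin.castLE hgl) (Fin.castLE hgl))

theorem inc'_injective (g l : ℕ) (hgl : g ≤ l) : Function.Injective (inc' g l hgl) := by
  apply FreeGroup.map_injective
  exact Sum.map_injective.mpr ⟨Fin.castLE_injective hgl, Fin.castLE_injective hgl⟩

theorem subHom_inc' {l : ℕ} {a b : Fin (l + 1) → G} (hgl : g ≤ l) (z : Fr g) :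
    subHom a b g (Nat.le_succ_of_le hgl) z = jR a b (inc' g l hgl z) := by
  have h1 : subHom a b g (Nat.le_succ_of_le hgl) = (jR a b).comp (inc' g l hgl) := by
    ext i
    rcases i with k | k
    · simp [subHom, jR, inc']
    · simp [subHom, jR, inc']
  rw [h1]
  rfl

theorem subHom_injective (h : IsSurf a b) (hgm : g < m) :
    Function.Injective (subHom a b g hgm.le) := by
  obtain ⟨l, rfl⟩ : ∃ l, m = l + 1 := ⟨m - 1, by omega⟩
  intro y z hyz
  have hgl : g ≤ l := by omega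
  have e1 : subHom a b g hgm.le y = jR a b (inc' g l hgl y) := subHom_inc' hgl y
  have e2 : subHom a b g hgm.le z = jR a b (inc' g l hgl z) := subHom_inc' hgl z
  rw [e1, e2] at hyz
  exact inc'_injective g l _ (jR_injective h hyz)

variable {P : Type*} [Group P] {x y : Fin g → P}

/-- Automorphisms of the free group generated by twists induce products of twists. -/
theorem FT_ind (hP : IsSurf x y) (f' : MulAut (Fr g)) (hf : f' ∈ FT g) :
    ∃ φ ∈ TW hP, ∀ z, φ (qH x y z) = qH x y (f' z) := by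
  obtain ⟨u, v, h⟩ := exists_isSurf (g := g + 1) (G := SurfGroup (g + 1)) ⟨MulEquiv.refl _⟩
  refine Subgroup.closure_induction
    (p := fun f' _ => ∃ φ ∈ TW hP, ∀ z, φ (qH x y z) = qH x y (f' z)) ?_ ?_ ?_ ?_ hf
  · rintro T (⟨i, rfl⟩ | ⟨i, rfl⟩ | ⟨i, j, hij, rfl⟩)
    · exact ⟨_, Subgroup.subset_closure (Or.inl ⟨_, rfl⟩), (trip_TA h hP i).ind⟩
    · exact ⟨_, Subgroup.subset_closure (Or.inr (Or.inl ⟨_, rfl⟩)), (trip_TB h hP i).ind⟩
    · exact ⟨TC hP i j hij, Subgroup.subset_closure (Or.inr (Or.inr ⟨i, j, hij, rfl⟩)),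
        (trip_TC h hP hij).ind⟩
  · exact ⟨1, Subgroup.one_mem _, fun _ => rfl⟩
  · rintro s t _ _ ⟨φ, h1, h2⟩ ⟨ψ, h3, h4⟩
    refine ⟨_, Subgroup.mul_mem _ h1 h3, fun z => ?_⟩
    rw [MulAut.mul_apply, h4, h2, MulAut.mul_apply]
  · rintro s _ ⟨φ, h1, h2⟩
    refine ⟨_, Subgroup.inv_mem _ h1, fun z => ?_⟩
    have h3 := h2 (s⁻¹ z)
    rw [MulAut.apply_inv_self] at h3
    rw [← h3, MulAut.inv_apply_self]

/-- Products of twists lift to the free group. -/
theorem TW_lift (hP : IsSurf x y) (φ : MulAut P) (hφ : φ ∈ TW hP) :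
    ∃ f' ∈ FT g, ∀ z, φ (qH x y z) = qH x y (f' z) := by
  obtain ⟨u, v, h⟩ := exists_isSurf (g := g + 1) (G := SurfGroup (g + 1)) ⟨MulEquiv.refl _⟩
  refine Subgroup.closure_induction
    (p := fun φ _ => ∃ f' ∈ FT g, ∀ z, φ (qH x y z) = qH x y (f' z)) ?_ ?_ ?_ ?_ hφ
  · rintro T (⟨i, rfl⟩ | ⟨i, rfl⟩ | ⟨i, j, hij, rfl⟩)
    · exact ⟨_, Subgroup.subset_closure (Or.inl ⟨_, rfl⟩), (trip_TA h hP i).ind⟩
    · exact ⟨_, Subgroup.subset_closure (Or.inr (Or.inl ⟨_, rfl⟩)), (trip_TB h hP i).ind⟩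
    · exact ⟨FC i j (ne_of_hij hij), Subgroup.subset_closure (Or.inr (Or.inr ⟨i, j, hij, rfl⟩)),
        (trip_TC h hP hij).ind⟩
  · exact ⟨1, Subgroup.one_mem _, fun _ => rfl⟩
  · rintro s t _ _ ⟨φ, h1, h2⟩ ⟨ψ, h3, h4⟩
    refine ⟨_, Subgroup.mul_mem _ h1 h3, fun z => ?_⟩
    rw [MulAut.mul_apply, h4, h2, MulAut.mul_apply]
  · rintro s _ ⟨φ, h1, h2⟩
    refine ⟨_, Subgroup.inv_mem _ h1, fun z => ?_⟩
    have h3 := h2 (φ⁻¹ z)
    rw [MulAut.apply_inv_self] at h3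
    rw [← h3, MulAut.inv_apply_self]

/-- The twists of the free group fix the boundary. -/
theorem FT_dl (f' : MulAut (Fr g)) (hf : f' ∈ FT g) : f' (dl g) = dl g := by
  obtain ⟨u, v, h⟩ := exists_isSurf (g := g + 1) (G := SurfGroup (g + 1)) ⟨MulEquiv.refl _⟩
  have hle : FT g ≤ fixS {(dl g : Fr g)} := by
    rw [FT, Subgroup.closure_le]
    rintro T (⟨i, rfl⟩ | ⟨i, rfl⟩ | ⟨i, j, hij, rfl⟩)
    · rintro _ rfl
      exact pair_dl (pair_TA h i)
    · rintro _ rfl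
      exact pair_dl (pair_TB h i)
    · rintro _ rfl
      exact pair_dl (pair_TC h hij)
  exact hle hf _ rfl

end

end Pool.MP_59b15d_al.H60G
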