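import Mathlib
import Pool.Agent.H.MP_59b15d_al.h60g.Rl

set_option autoImplicit false

namespace Pool.MP_59b15d_al.H60G

open Pool.MP_59b15d_al.H24T Pool.MP_59b15d_al.H76R Pool.MP_59b15d_al.H73E
open Pool.MP_59b15d_al.H76 (InnMod exists_char_le comap_fi map_fi surf_fg congSub mem_congSub
  congSub_finiteIndex)
open FreeGroup (of)

section

variable {m g : ℕ} {G : Type*} [Group G] {a b : Fin m → G} {P : Type*} [Group P]
  {x y : Fin g → P}

/-- The automorphisms fixing a homomorphism up to conjugation. -/
def stabH {Q : Type*} [Group Q] (θ : G →* Q) : Subgroup (MulAut G) where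
  carrier := {ψ | ∃ c : Q, ∀ t, θ (ψ t) = c * θ t * c⁻¹}
  one_mem' := ⟨1, fun t => by simp⟩
  mul_mem' := by
    rintro ψ ψ' ⟨c, hc⟩ ⟨c', hc'⟩
    refine ⟨c * c', fun t => ?_⟩
    rw [MulAut.mul_apply, hc, hc']
    group
  inv_mem' := by
    rintro ψ ⟨c, hc⟩
    refine ⟨c⁻¹, fun t => ?_⟩
    have h1 := hc (ψ⁻¹ t)
    rw [MulAut.apply_inv_self] at h1
    rw [h1]
    group

theorem mem_stabH {Q : Type*} [Group Q] {θ : G →* Q} {ψ : MulAut G} :
    ψ ∈ stabH θ ↔ ∃ c : Q, ∀ t, θ (ψ t) = c * θ t * c⁻¹ := Iff.rfl

theorem conj_stabH {Q : Type*} [Group Q] (θ : G →* Q) (t : G) : MulAut.conj t ∈ stabH θ :=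
  ⟨θ t, fun s => by rw [MulAut.conj_apply, map_mul, map_mul, map_inv]⟩

theorem stabH_fi {Q : Type*} [Group Q] [Finite Q] [Group.FG G] (θ : G →* Q) :
    (stabH θ).FiniteIndex := by
  obtain ⟨Γ, hc, hf, hle⟩ := exists_char_le θ.ker (Subgroup.finiteIndex_ker θ)
  have h1 : (congSub Γ hc).FiniteIndex := congSub_finiteIndex hc hf
  refine Subgroup.finiteIndex_of_le (H := congSub Γ hc) ?_
  rintro ψ ⟨s, hs⟩
  refine ⟨θ s, fun t => ?_⟩
  have h2 := hle (hs t)
  rw [MonoidHom.mem_ker, map_mul, map_inv, mul_inv_eq_one, map_mul, map_mul, map_inv] at h2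
  exact h2

/-- A congruence subgroup extends so that it contains the mapping class group of the complementary
handles. -/
theorem ext_of_cong (h : IsSurf a b) (hP : IsSurf x y) (hg : g ≤ m) (Γ : Subgroup P)
    (hc : Γ.Characteristic) (hf : Γ.FiniteIndex) :
    ∃ K : Subgroup (MulAut G), K.FiniteIndex ∧ (∀ t : G, MulAut.conj t ∈ K) ∧ MR h g m ≤ K ∧
      (∀ f' f, Rel a b g hg f' f → (∀ z, f' z * z⁻¹ ∈ Γ.comap (qH x y)) → f ∈ K) ∧
      ∀ f' f φ, Rel a b g hg f' f → (∀ z, φ (qH x y z) = qH x y (f' z)) → f ∈ K →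
        InnMod Γ φ := by
  have hGfg : Group.FG G := surf_fg h
  have hn : Γ.Normal := inferInstance
  let Q := P ⧸ Γ
  let π : P →* Q := QuotientGroup.mk' Γ
  have hπ : ∀ t, π t = 1 ↔ t ∈ Γ := fun t => QuotientGroup.eq_one_iff t
  have hQ : Finite Q := Subgroup.finite_quotient_of_finiteIndex
  -- the homomorphism
  obtain ⟨θ, h1, h2⟩ := h.lift (T := Q) (fun i => if hi : (i : ℕ) < g then π (x ⟨i, hi⟩) else 1)
    (fun i => if hi : (i : ℕ) < g then π (y ⟨i, hi⟩) else 1) (by
      have key : ∀ k, k ≤ m → ∀ s t : Fin k → Q,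
          (∀ i : Fin k, s i = if hi : (i : ℕ) < g then π (x ⟨i, hi⟩) else 1) →
          (∀ i : Fin k, t i = if hi : (i : ℕ) < g then π (y ⟨i, hi⟩) else 1) →
          (k ≤ g → relWord s t = π (qH x y (dl k))) ∧
          (g ≤ k → relWord s t = 1) := by
        intro k
        induction k with
        | zero =>
          intro _ s t _ _
          rw [relWord_zero]
          refine ⟨fun _ => ?_, fun _ => rfl⟩
          rw [dl, map_one, map_one]
        | succ k ih =>
          intro hk s t hs ht
          obtain ⟨i1, i2⟩ := ih (by omega) (fun i => s i.castSucc) (fun i => t i.castSucc)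
            (fun i => hs _) (fun i => ht _)
          have e1 : k + 1 ≤ g → relWord s t = π (qH x y (dl (k + 1))) := by
            intro hkg
            have hk' : k < g := by omega
            rw [relWord_last, i1 (by omega), hs, ht, dl_succ k hk']
            simp only [Fin.val_last, dif_pos hk', map_mul, kk, map_inv, qH_a, qH_b]
          refine ⟨e1, ?_⟩
          intro hgk
          rcases Nat.lt_or_ge k g with hkg | hkg
          · have hkg' : k + 1 = g := by omega
            rw [e1 (by omega), hkg', qH_dl hP, map_one]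
          · rw [relWord_last, i2 hkg, hs, ht]
            simp only [Fin.val_last]
            rw [dif_neg (by omega), dif_neg (by omega)]
            simp
      exact (key m le_rfl _ _ (fun _ => rfl) (fun _ => rfl)).2 hg)
  have hlow : ∀ z, θ (subHom a b g hg z) = π (qH x y z) := by
    intro z
    have e1 : θ.comp (subHom a b g hg) = π.comp (qH x y) := by
      ext i
      rcases i with k | k
      · change θ (subHom a b g hg (of (Sum.inl k))) = π (qH x y (of (Sum.inl k)))
        rw [subHom_a, h1, qH_a]
        simp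
      · change θ (subHom a b g hg (of (Sum.inr k))) = π (qH x y (of (Sum.inr k)))
        rw [subHom_b, h2, qH_b]
        simp
    exact DFunLike.congr_fun e1 z
  have hhigh : ∀ k : Fin m, g ≤ (k : ℕ) → θ (a k) = 1 ∧ θ (b k) = 1 := by
    intro k hk
    rw [h1, h2, dif_neg (by omega), dif_neg (by omega)]
    exact ⟨rfl, rfl⟩
  have hfixθ : ∀ f : MulAut G, (∀ k, θ (f (a k)) = θ (a k)) → (∀ k, θ (f (b k)) = θ (b k)) →
      f ∈ stabH θ := by
    intro f e1 e2
    refine ⟨1, fun t => ?_⟩
    have e3 : θ.comp f.toMonoidHom = θ := hom_ext h (fun i => e1 i) (fun i => e2 i)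
    rw [one_mul, inv_one, mul_one]
    exact DFunLike.congr_fun e3 t
  refine ⟨stabH θ, stabH_fi θ, conj_stabH θ, ?_, ?_, ?_⟩
  · apply MR_le h
    · intro i hi _
      apply hfixθ
      · intro k
        rw [TA_a]
      · intro k
        by_cases hk : k = i
        · subst hk
          rw [TA_b, map_mul, (hhigh k hi).1, mul_one]
        · rw [TA_b_ne h hk]
    · intro i hi _
      apply hfixθ
      · intro k
        by_cases hk : k = i
        · subst hk
          rw [TB_a, map_mul, (hhigh k hi).2, mul_one]
        · rw [TB_a_ne h hk]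
      · intro k
        rw [TB_b]
    · intro i j hij hi _
      have hj : g ≤ (j : ℕ) := by omega
      apply hfixθ
      · intro k
        by_cases hk : k = i
        · subst hk
          rw [TC_ai]
          simp only [map_mul, map_inv, (hhigh k hi).1, (hhigh k hi).2, (hhigh j hj).1]
          simp
        · by_cases hk2 : k = j
          · subst hk2
            rw [TC_aj]
            simp only [map_mul, map_inv, (hhigh i hi).2, (hhigh k hj).1]
            simp
          · rw [TC_a_ne h hij hk hk2]
      · intro k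
        by_cases hk : k = i
        · subst hk
          rw [TC_bi]
          simp only [map_mul, map_inv, (hhigh k hi).2, (hhigh j hj).1]
          simp
        · by_cases hk2 : k = j
          · subst hk2
            rw [TC_bj]
            simp only [map_mul, map_inv, (hhigh i hi).2, (hhigh k hj).1, (hhigh k hj).2]
            simp
          · rw [TC_b_ne h hij hk hk2]
  · intro f' f hr hz
    have hz' : ∀ z, π (qH x y (f' z)) = π (qH x y z) := by
      intro z
      rw [← mul_inv_eq_one, ← map_inv, ← map_mul, hπ, ← map_inv, ← map_mul]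
      exact hz z
    apply hfixθ
    · intro k
      rcases lt_or_ge (k : ℕ) g with hk | hk
      · have e1 : a k = subHom a b g hg (of (Sum.inl ⟨k, hk⟩)) := by
          rw [subHom_a]
          rfl
        rw [e1, hr.on, hlow, hlow, hz']
      · have e1 := (hr.off k hk).1
        rw [ex_val] at e1
        rw [e1]
    · intro k
      rcases lt_or_ge (k : ℕ) g with hk | hk
      · have e1 : b k = subHom a b g hg (of (Sum.inr ⟨k, hk⟩)) := by
          rw [subHom_b]
          rfl
        rw [e1, hr.on, hlow, hlow, hz']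
      · have e1 := (hr.off k hk).2
        rw [ex_val] at e1
        rw [e1]
  · rintro f' f φ hr hind ⟨c, hcc⟩
    obtain ⟨c₀, rfl⟩ := QuotientGroup.mk'_surjective Γ c
    refine ⟨c₀, fun t => ?_⟩
    obtain ⟨z, rfl⟩ := qH_surj hP t
    rw [← hπ, map_mul, map_inv, mul_inv_eq_one, map_mul, map_mul, map_inv, hind, ← hlow, ← hr.on,
      hcc, hlow]

end

end Pool.MP_59b15d_al.H60G
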