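import Mathlib
import Pool.Agent.H.MP_59b15d_al.h60g.Rl

set_option autoImplicit false

namespace Pool.MP_59b15d_al.H60G

open Pool.MP_59b15d_al.H24T Pool.MP_59b15d_al.H76R Pool.MP_59b15d_al.H73E
open Pool.MP_59b15d_al.H76 (exists_char_le comap_fi map_fi)
open FreeGroup (of)

section

variable {m g : ℕ} {G : Type*} [Group G]

/-- Twists of the first handles belong to pairs. -/
theorem pair_of_MR {l : ℕ} {a b : Fin (l + 1) → G} (h : IsSurf a b) (hgl : g ≤ l)
    (f : MulAut G) (hf : f ∈ MR h 0 g) : ∃ f'' : MulAut (Fr l), Pair h f'' f := by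
  have hcs : ∀ k : Fin (l + 1), (k : ℕ) < g → ∃ i : Fin l, k = i.castSucc :=
    fun k hk => ⟨⟨k, by omega⟩, rfl⟩
  refine Subgroup.closure_induction (p := fun f _ => ∃ f'' : MulAut (Fr l), Pair h f'' f)
    ?_ ?_ ?_ ?_ hf
  · rintro T (⟨i, _, hi, rfl⟩ | ⟨i, _, hi, rfl⟩ | ⟨i, j, hij, _, hj, rfl⟩)
    · obtain ⟨i', rfl⟩ := hcs i hi
      exact ⟨_, pair_TA h i'⟩
    · obtain ⟨i', rfl⟩ := hcs i hi
      exact ⟨_, pair_TB h i'⟩
    · obtain ⟨j', rfl⟩ := hcs j hj
      obtain ⟨i', rfl⟩ := hcs i (by omega)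
      have hij' : (j' : ℕ) = i' + 1 := hij
      exact ⟨_, pair_TC h hij'⟩
  · exact ⟨1, Pair.one h⟩
  · rintro s t _ _ ⟨s', h1⟩ ⟨t', h2⟩
    exact ⟨_, h1.mul h2⟩
  · rintro s _ ⟨s', h1⟩
    exact ⟨_, h1.inv⟩

/-- The automorphism of the larger free group. -/
theorem pair_rel {l : ℕ} {a b : Fin (l + 1) → G} (h : IsSurf a b) (hgl : g ≤ l)
    {f'' : MulAut (Fr l)} {f : MulAut G} (hp : Pair h f'' f) {f' : MulAut (Fr g)}
    (hr : Rel a b g (Nat.le_succ_of_le hgl) f' f) (U : Subgroup (Fr l)) (hU : U.Normal)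
    (hz : ∀ z, f' z * z⁻¹ ∈ U.comap (inc' g l hgl)) (z : Fr l) : f'' z * z⁻¹ ∈ U := by
  have hon : ∀ z, f'' (inc' g l hgl z) = inc' g l hgl (f' z) := by
    intro z
    apply jR_injective h
    rw [← hp.fj, ← subHom_inc', ← subHom_inc', hr.on]
  have key : (QuotientGroup.mk' U).comp f''.toMonoidHom = QuotientGroup.mk' U := by
    have hlow : ∀ z, QuotientGroup.mk' U (f'' (inc' g l hgl z)) =
        QuotientGroup.mk' U (inc' g l hgl z) := by
      intro z
      rw [hon, ← mul_inv_eq_one, ← map_inv, ← map_mul, ← map_inv (inc' g l hgl), ← map_mul]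
      exact (QuotientGroup.eq_one_iff _).mpr (hz z)
    ext i
    rcases i with k | k
    · change QuotientGroup.mk' U (f'' (of (Sum.inl k))) = QuotientGroup.mk' U (of (Sum.inl k))
      rcases lt_or_ge (k : ℕ) g with hk | hk
      · have h1 : (of (Sum.inl k) : Fr l) = inc' g l hgl (of (Sum.inl ⟨k, hk⟩)) := by
          simp [inc']
        rw [h1]
        exact hlow _
      · have h1 : f'' (of (Sum.inl k)) = of (Sum.inl k) := by
          apply jR_injective h
          rw [← hp.fj, jR_a]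
          have h2 := (hr.off k hk).1
          rwa [ex_lt a (by omega : (k : ℕ) < l + 1)] at h2
        rw [h1]
    · change QuotientGroup.mk' U (f'' (of (Sum.inr k))) = QuotientGroup.mk' U (of (Sum.inr k))
      rcases lt_or_ge (k : ℕ) g with hk | hk
      · have h1 : (of (Sum.inr k) : Fr l) = inc' g l hgl (of (Sum.inr ⟨k, hk⟩)) := by
          simp [inc']
        rw [h1]
        exact hlow _
      · have h1 : f'' (of (Sum.inr k)) = of (Sum.inr k) := by
          apply jR_injective h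
          rw [← hp.fj, jR_b]
          have h2 := (hr.off k hk).2
          rwa [ex_lt b (by omega : (k : ℕ) < l + 1)] at h2
        rw [h1]
  have h1 := DFunLike.congr_fun key z
  have h2 : QuotientGroup.mk' U (f'' z * z⁻¹) = 1 := by
    rw [map_mul, map_inv, mul_inv_eq_one]
    exact h1
  exact (QuotientGroup.eq_one_iff _).mp h2

/-- Deep elements of the mapping class group of the first `g` handles are central modulo `N`. -/
theorem central {a b : Fin m → G} (h : IsSurf a b) (hgm : g < m) (N : Subgroup (MulAut G))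
    (hn : N.Normal) (hf : N.FiniteIndex) (hI : ∀ x : G, MulAut.conj x ∈ N) :
    ∃ W : Subgroup (Fr g), W.Normal ∧ W.FiniteIndex ∧ ∀ f' f, Rel a b g hgm.le f' f →
      f ∈ MR h 0 g → (∀ z, f' z * z⁻¹ ∈ W) → ∀ ψ ∈ MMs h, f * ψ * f⁻¹ * ψ⁻¹ ∈ N := by
  obtain ⟨l, rfl⟩ : ∃ l, m = l + 1 := ⟨m - 1, by omega⟩
  have hgl : g ≤ l := by omega
  obtain ⟨U, hUc, hUf, hU⟩ := T1plus h N hn hf hI
  refine ⟨U.comap (inc' g l hgl), inferInstance, comap_fi _ hUf, ?_⟩
  intro f' f hr hfm hz ψ hψ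
  obtain ⟨f'', hp⟩ := pair_of_MR h hgl f hfm
  exact hU f'' f hp (fun z => pair_rel h hgl hp hr U inferInstance hz z) ψ hψ

end

end Pool.MP_59b15d_al.H60G
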