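import Mathlib
import Pool.Agent.H.MP_59b15d_al.h60g.Ce
import Pool.Agent.H.MP_59b15d_al.h73e.Xb
import Pool.Agent.H.MP_59b15d_al.h73s.Cmp

set_option autoImplicit false

namespace Pool.MP_59b15d_al.H60G

open Pool.MP_59b15d_al.H24T Pool.MP_59b15d_al.H76R Pool.MP_59b15d_al.H73E
open Pool.MP_59b15d_al.H76 (InnMod exists_char_le comap_fi map_fi surf_fg)
open FreeGroup (of)

section

variable {m g : ℕ} {G : Type*} [Group G] {a b : Fin m → G} {P : Type*} [Group P]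
  {x y : Fin g → P}

/-- If `K` contains a conjugate of the deep elements of the mapping class group of the first `g`
handles, then the subgroup induced by the elements in `K` is a congruence subgroup. -/
theorem cong_of_ext (hg3 : 3 ≤ g) (hgm : g < m) (h : IsSurf a b) (hP : IsSurf x y)
    (H : Subgroup (MulAut P)) (hI : ∀ t : P, MulAut.conj t ∈ H)
    (K : Subgroup (MulAut G)) (hKf : K.FiniteIndex) (hKI : ∀ t : G, MulAut.conj t ∈ K)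
    (W : Subgroup (Fr g)) (hW : W.FiniteIndex) (ψ : MulAut G) (hψ : ψ ∈ MMs h)
    (hK : ∀ f' f, Rel a b g hgm.le f' f → f ∈ MR h 0 g → (∀ z, f' z * z⁻¹ ∈ W) →
      ψ * f * ψ⁻¹ ∈ K)
    (hH : ∀ f' f φ, Rel a b g hgm.le f' f → f ∈ MR h 0 g →
      (∀ z, φ (qH x y z) = qH x y (f' z)) → f ∈ K → φ ∈ H) :
    ∃ Γ : Subgroup P, Γ.Characteristic ∧ Γ.FiniteIndex ∧ ∀ φ ∈ MMs hP, InnMod Γ φ → φ ∈ H := by
  have hI₀ : ∀ t : G, MulAut.conj t ∈ K.normalCore := by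
    intro t ρ
    have h1 := hKI (ρ t)
    rwa [← Cm_conj] at h1
  obtain ⟨W₁, hW₁n, hW₁f, hW₁⟩ := central h hgm K.normalCore inferInstance inferInstance hI₀
  obtain ⟨U, hUc, hUf, hUW⟩ := exists_char_le (W ⊓ W₁) inferInstance
  obtain ⟨Γ₀, hΓn, hΓf, hdl, hΓ⟩ := Pool.MP_59b15d_al.H73S.comparisonF hg3 U hUc hUf
  have hPfg : Group.FG P := surf_fg hP
  have hmf : (Γ₀.map (qH x y)).FiniteIndex := map_fi _ (qH_surj hP) hΓf
  obtain ⟨Γ, hc, hf, hle⟩ := exists_char_le (Γ₀.map (qH x y)) hmf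
  refine ⟨Γ, hc, hf, ?_⟩
  have hUn : U.Normal := inferInstance
  have hΓ'n : Γ.Normal := inferInstance
  rintro φ hφ ⟨g₀, hg₀⟩
  let φ₁ : MulAut P := MulAut.conj g₀⁻¹ * φ
  have hφ₁ : φ₁ ∈ TW hP := by
    rw [← Xb_MMs (by omega) hP]
    exact Subgroup.mul_mem _ (Subgroup.subset_closure (Or.inl ⟨_, rfl⟩)) hφ
  have hφ₁2 : ∀ z, φ₁ z * z⁻¹ ∈ Γ := by
    intro z
    have h1 := hΓ'n.conj_mem _ (hg₀ z) g₀⁻¹
    have h2 : g₀⁻¹ * (φ z * (g₀ * z * g₀⁻¹)⁻¹) * g₀⁻¹⁻¹ = φ₁ z * z⁻¹ := by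
      change _ = g₀⁻¹ * φ z * g₀⁻¹⁻¹ * z⁻¹
      group
    rwa [h2] at h1
  obtain ⟨f', hf', hind⟩ := TW_lift hP φ₁ hφ₁
  have hclose : ∀ z, f' z * z⁻¹ ∈ Γ₀ := by
    intro z
    have h1 : qH x y (f' z * z⁻¹) ∈ Γ₀.map (qH x y) := by
      rw [map_mul, map_inv, ← hind]
      exact hle (hφ₁2 _)
    obtain ⟨w, hw, hw2⟩ := h1
    have h2 : qH x y (w⁻¹ * (f' z * z⁻¹)) = 1 := by
      rw [map_mul, map_inv, hw2, inv_mul_cancel]
    have h3 := qH_ker hP h2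
    have h4 : Subgroup.normalClosure {(dl g : Fr g)} ≤ Γ₀ :=
      Subgroup.normalClosure_le_normal (by
        rintro _ rfl
        exact hdl)
    have h5 := Γ₀.mul_mem hw (h4 h3)
    rwa [mul_inv_cancel_left] at h5
  obtain ⟨k, hk⟩ := hΓ f' (FT_dl f' hf') hclose
  obtain ⟨f, hfm, hrel⟩ := MR_of_rel h hgm.le f' hf'
  obtain ⟨T, hTm, hT⟩ := exists_rel_bd h hgm.le
  have hR : Rel a b g hgm.le (MulAut.conj (dl g) ^ (-k) * f') (T ^ (-k) * f) :=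
    (hT.zpow (-k)).mul hrel
  have hM : T ^ (-k) * f ∈ MR h 0 g := Subgroup.mul_mem _ (Subgroup.zpow_mem _ hTm _) hfm
  have hdeep : ∀ z, (MulAut.conj (dl g) ^ (-k) * f' : MulAut (Fr g)) z * z⁻¹ ∈ U := by
    intro z
    have h4 := hUn.conj_mem _ (hk z) (dl g ^ k)⁻¹
    have h5 : (MulAut.conj (dl g) ^ (-k) * f' : MulAut (Fr g)) z * z⁻¹ =
        (dl g ^ k)⁻¹ * (f' z * (dl g ^ k * z * (dl g ^ k)⁻¹)⁻¹) * (dl g ^ k)⁻¹⁻¹ := by
      rw [← map_zpow, MulAut.mul_apply, MulAut.conj_apply]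
      group
    rw [h5]
    exact h4
  have hind2 : ∀ z, φ₁ (qH x y z) = qH x y ((MulAut.conj (dl g) ^ (-k) * f' :
      MulAut (Fr g)) z) := by
    intro z
    have e1 : (MulAut.conj (dl g) ^ (-k) * f' : MulAut (Fr g)) z =
        dl g ^ (-k) * f' z * (dl g ^ (-k))⁻¹ := by
      rw [← map_zpow, MulAut.mul_apply, MulAut.conj_apply]
    rw [e1, map_mul, map_mul, map_inv, map_zpow, qH_dl hP, one_zpow, one_mul, inv_one, mul_one,
      hind]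
  have hFK : T ^ (-k) * f ∈ K := by
    have h1 := hK _ _ hR hM (fun z => (hUW (hdeep z)).1)
    have h2 := K.normalCore_le (hW₁ _ _ hR hM (fun z => (hUW (hdeep z)).2) ψ hψ)
    have h3 := K.mul_mem h2 h1
    have h4 : (T ^ (-k) * f) * ψ * (T ^ (-k) * f)⁻¹ * ψ⁻¹ * (ψ * (T ^ (-k) * f) * ψ⁻¹) =
        (T ^ (-k) * f) := by group
    rwa [h4] at h3
  have h3 : φ₁ ∈ H := hH _ _ _ hR hM hind2 hFK
  have h6 : φ = MulAut.conj g₀ * φ₁ := by
    change φ = MulAut.conj g₀ * (MulAut.conj g₀⁻¹ * φ)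
    rw [← mul_assoc, ← map_mul, mul_inv_cancel, map_one, one_mul]
  rw [h6]
  exact H.mul_mem (hI _) h3

end

end Pool.MP_59b15d_al.H60G
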