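import Mathlib
import Pool.Agent.H.MP_59b15d_al.h60g.Bl

set_option autoImplicit false

namespace Pool.MP_59b15d_al.H60G

open Pool.MP_59b15d_al.H24T Pool.MP_59b15d_al.H76R Pool.MP_59b15d_al.H73E

section

variable {m : ℕ} {G : Type*} [Group G] {a b : Fin m → G}

/-- The first `g` handles can be moved to the next `g` handles. -/
theorem exists_shift (h : IsSurf a b) (g : ℕ) (hg : 2 * g ≤ m) :
    ∃ ψ ∈ MR h 0 m, ∀ f ∈ MR h 0 g, ψ * f * ψ⁻¹ ∈ MR h g m := by
  obtain ⟨β, b1, b2, b3⟩ := exists_beta h g g (by omega)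
  have hc : ∀ k, k < g → β (ex a (g + k)) = ex a k ∧ β (ex b (g + k)) = ex b k := b3
  refine ⟨β⁻¹, inv_mem (MR_mono h le_rfl (by omega) b1), ?_⟩
  have key : ∀ F F' : MulAut G, F ∈ MR h 0 g → F' ∈ MR h g m →
      (∀ k, k < g → F (β (ex a (g + k))) = β (F' (ex a (g + k))) ∧
        F (β (ex b (g + k))) = β (F' (ex b (g + k)))) →
      (∀ k, 2 * g ≤ k → F' (ex a k) = ex a k ∧ F' (ex b k) = ex b k) →
      β⁻¹ * F * β⁻¹⁻¹ ∈ MR h g m := by
    intro F F' hF hF' h1 h2
    have h3 : F * β = β * F' := by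
      apply ext_ex h
      intro k hk
      rw [MulAut.mul_apply, MulAut.mul_apply, MulAut.mul_apply, MulAut.mul_apply]
      rcases lt_or_ge k g with hkg | hkg
      · have h4 := MR_fix h hF' k (Or.inl hkg)
        have h5 := MR_fix h hF (g + k) (Or.inr (by omega))
        have h6 : F (DD a b g) = DD a b g := MR_DD h hF (Or.inl le_rfl)
        rw [h4.1, h4.2, (b2 k hkg).1, (b2 k hkg).2]
        simp only [map_mul, map_inv, h6, h5.1, h5.2]
        exact ⟨trivial, trivial⟩
      · rcases lt_or_ge k (2 * g) with hk2 | hk2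
        · obtain ⟨l, rfl⟩ : ∃ l, k = g + l := ⟨k - g, by omega⟩
          exact h1 l (by omega)
        · have h4 := h2 k hk2
          have h5 := MR_fix h b1 k (Or.inr (by omega))
          have h6 := MR_fix h hF k (Or.inr (by omega))
          rw [h4.1, h4.2, h5.1, h5.2]
          exact h6
    have h7 : β⁻¹ * F * β⁻¹⁻¹ = F' := by
      rw [inv_inv, mul_assoc, h3, inv_mul_cancel_left]
    rw [h7]
    exact hF'
  have hle : MR h 0 g ≤ (MR h g m).comap (MulAut.conj β⁻¹).toMonoidHom := by
    apply MR_le h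
    · intro i _ hi
      change β⁻¹ * TA h i * β⁻¹⁻¹ ∈ MR h g m
      have hgi : g + (i : ℕ) < m := by omega
      refine key _ (TA h ⟨g + i, hgi⟩) (TA_mem h i (by omega) hi)
        (TA_mem h _ (by simp) (by simp; omega)) ?_ ?_
      · intro k hk
        have hgk : g + k < m := by omega
        rw [(hc k hk).1, (hc k hk).2, ex_lt a hgk, ex_lt b hgk, TA_a,
          ex_lt a (by omega : k < m), ex_lt b (by omega : k < m), TA_a]
        have c1 := hc k hk
        rw [ex_lt a hgk, ex_lt b hgk, ex_lt a (by omega : k < m), ex_lt b (by omega : k < m)] at c1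
        refine ⟨c1.1.symm, ?_⟩
        by_cases hki : k = i
        · subst hki
          have e1 : TA h ⟨g + (i : ℕ), hgi⟩ (b ⟨g + (i : ℕ), hgk⟩) =
            b ⟨g + (i : ℕ), hgk⟩ * a ⟨g + (i : ℕ), hgk⟩ := TA_b h _
          rw [e1, map_mul, c1.1, c1.2]
          exact TA_b h i
        · rw [TA_b_ne h (by simp [Fin.ext_iff, hki]), TA_b_ne h (by simp [Fin.ext_iff, hki]), c1.2]
      · intro k hk
        exact MR_fix h (TA_mem h _ (le_refl (g + (i : ℕ))) (Nat.lt_succ_self _)) k
          (Or.inr (by simp only; omega))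
    · intro i _ hi
      change β⁻¹ * TB h i * β⁻¹⁻¹ ∈ MR h g m
      have hgi : g + (i : ℕ) < m := by omega
      refine key _ (TB h ⟨g + i, hgi⟩) (TB_mem h i (by omega) hi)
        (TB_mem h _ (by simp) (by simp; omega)) ?_ ?_
      · intro k hk
        have hgk : g + k < m := by omega
        rw [(hc k hk).1, (hc k hk).2, ex_lt a hgk, ex_lt b hgk, TB_b,
          ex_lt a (by omega : k < m), ex_lt b (by omega : k < m), TB_b]
        have c1 := hc k hk
        rw [ex_lt a hgk, ex_lt b hgk, ex_lt a (by omega : k < m), ex_lt b (by omega : k < m)] at c1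
        refine ⟨?_, c1.2.symm⟩
        by_cases hki : k = i
        · subst hki
          have e1 : TB h ⟨g + (i : ℕ), hgi⟩ (a ⟨g + (i : ℕ), hgk⟩) =
            a ⟨g + (i : ℕ), hgk⟩ * b ⟨g + (i : ℕ), hgk⟩ := TB_a h _
          rw [e1, map_mul, c1.1, c1.2]
          exact TB_a h i
        · rw [TB_a_ne h (by simp [Fin.ext_iff, hki]), TB_a_ne h (by simp [Fin.ext_iff, hki]), c1.1]
      · intro k hk
        exact MR_fix h (TB_mem h _ (le_refl (g + (i : ℕ))) (Nat.lt_succ_self _)) k
          (Or.inr (by simp only; omega))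
    · intro i j hij _ hj
      change β⁻¹ * TC h i j hij * β⁻¹⁻¹ ∈ MR h g m
      have hgi : g + (i : ℕ) < m := by omega
      have hgj : g + (j : ℕ) < m := by omega
      have hij' : ((⟨g + j, hgj⟩ : Fin m) : ℕ) = (⟨g + i, hgi⟩ : Fin m) + 1 := by
        simp only; omega
      refine key _ (TC h ⟨g + i, hgi⟩ ⟨g + j, hgj⟩ hij') (TC_mem h i j hij (by omega) hj)
        (TC_mem h _ _ hij' (by simp) (by simp; omega)) ?_ ?_
      · intro k hk
        have hgk : g + k < m := by omega
        have hci := hc i (by omega)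
        have hcj := hc j hj
        rw [ex_lt a hgi, ex_lt b hgi, ex_val, ex_val] at hci
        rw [ex_lt a hgj, ex_lt b hgj, ex_val, ex_val] at hcj
        rw [(hc k hk).1, (hc k hk).2, ex_lt a hgk, ex_lt b hgk,
          ex_lt a (by omega : k < m), ex_lt b (by omega : k < m)]
        have c1 := hc k hk
        rw [ex_lt a hgk, ex_lt b hgk, ex_lt a (by omega : k < m), ex_lt b (by omega : k < m)] at c1
        by_cases hki : k = i
        · subst hki
          have e1 : TC h ⟨g + (i : ℕ), hgi⟩ ⟨g + j, hgj⟩ hij' (a ⟨g + (i : ℕ), hgk⟩) = _ :=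
            TC_ai h _ _ hij'
          have e2 : TC h ⟨g + (i : ℕ), hgi⟩ ⟨g + j, hgj⟩ hij' (b ⟨g + (i : ℕ), hgk⟩) = _ :=
            TC_bi h _ _ hij'
          rw [e1, e2]
          simp only [map_mul, map_inv, hci.1, hci.2, hcj.1]
          exact ⟨TC_ai h i j hij, TC_bi h i j hij⟩
        · by_cases hkj : k = j
          · subst hkj
            have e1 : TC h ⟨g + i, hgi⟩ ⟨g + (j : ℕ), hgj⟩ hij' (a ⟨g + (j : ℕ), hgk⟩) = _ :=
              TC_aj h _ _ hij'
            have e2 : TC h ⟨g + i, hgi⟩ ⟨g + (j : ℕ), hgj⟩ hij' (b ⟨g + (j : ℕ), hgk⟩) = _ :=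
              TC_bj h _ _ hij'
            rw [e1, e2]
            simp only [map_mul, map_inv, hci.2, hcj.1, hcj.2]
            exact ⟨TC_aj h i j hij, TC_bj h i j hij⟩
          · rw [TC_a_ne h hij' (by simp [Fin.ext_iff, hki]) (by simp [Fin.ext_iff, hkj]),
              TC_b_ne h hij' (by simp [Fin.ext_iff, hki]) (by simp [Fin.ext_iff, hkj]),
              TC_a_ne h hij (by simp [Fin.ext_iff, hki]) (by simp [Fin.ext_iff, hkj]),
              TC_b_ne h hij (by simp [Fin.ext_iff, hki]) (by simp [Fin.ext_iff, hkj])]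
            exact ⟨c1.1.symm, c1.2.symm⟩
      · intro k hk
        exact MR_fix h (TC_mem h _ _ hij' (le_refl (g + (i : ℕ))) (Nat.lt_succ_self _)) k
          (Or.inr (by simp only; omega))
  exact fun f hf => hle hf

end

end Pool.MP_59b15d_al.H60G
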