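import Mathlib
import Pool.Agent.H.MP_59b15d_al.h60g.Defs
import Pool.Agent.H.MP_59b15d_al.h60g.Ko
import Pool.Agent.H.MP_59b15d_al.h60g.Ku
import Pool.Agent.H.MP_59b15d_al.h60g.Sh

set_option autoImplicit false

namespace Pool.MP_59b15d_al.H60G

open Pool.MP_59b15d_al.H24T Pool.MP_59b15d_al.H76R Pool.MP_59b15d_al.H73E
open Pool.MP_59b15d_al.H76 (InnMod exists_char_le comap_fi map_fi surf_fg)
open FreeGroup (of)

section

variable {m g : ℕ} {G : Type*} [Group G] {a b : Fin m → G} {P : Type*} [Group P]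
  {x y : Fin g → P}

theorem SubMod_eq (h : IsSurf a b) (k : ℕ) : SubMod a b k = MR h 0 k := by
  rw [SubMod, MR, Twists_eq h]
  simp only [Nat.zero_le, true_and]

theorem Twists_high (h : IsSurf a b) (T : MulAut G)
    (hT : T ∈ Twists a b (fun i => g ≤ i) (fun i => g ≤ i) (fun j => g < j)) :
    T ∈ MR h g m := by
  rw [Twists_eq h] at hT
  rcases hT with ⟨i, hi, rfl⟩ | ⟨i, hi, rfl⟩ | ⟨i, j, hij, hj, rfl⟩
  · exact TA_mem h i hi i.2
  · exact TB_mem h i hi i.2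
  · exact TC_mem h i j hij (by omega) j.2

theorem MR_high_le (h : IsSurf a b) {K : Subgroup (MulAut G)}
    (hK : ∀ T ∈ Twists a b (fun i => g ≤ i) (fun i => g ≤ i) (fun j => g < j), T ∈ K) :
    MR h g m ≤ K := by
  rw [Twists_eq h] at hK
  apply MR_le h
  · intro i hi _
    exact hK _ (Or.inl ⟨i, hi, rfl⟩)
  · intro i hi _
    exact hK _ (Or.inr (Or.inl ⟨i, hi, rfl⟩))
  · intro i j hij hi _
    exact hK _ (Or.inr (Or.inr ⟨i, j, hij, by omega, rfl⟩))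

theorem ind_of_rel {hg : g ≤ m} {f' : MulAut (Fr g)} {f : MulAut G} {φ : MulAut P}
    (h1 : Rel a b g hg f' f) (h2 : ∀ z, φ (qH x y z) = qH x y (f' z)) :
    Ind x y a b hg f φ := by
  intro z
  rw [subHom_qH]
  exact ⟨f' z, h1.on z, h2 z⟩

theorem rel_of_ind (h : IsSurf a b) (hgm : g < m) {f' : MulAut (Fr g)} {f : MulAut G}
    {φ : MulAut P} (h1 : Rel a b g hgm.le f' f) (h2 : Ind x y a b hgm.le f φ) (z : Fr g) :
    φ (qH x y z) = qH x y (f' z) := by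
  obtain ⟨z', h3, h4⟩ := h2 z
  rw [subHom_qH] at h4
  rw [h1.on] at h3
  rw [h4, subHom_injective h hgm h3]

theorem rel_deep (h : IsSurf a b) (hgm : g < m) {f' : MulAut (Fr g)} {f : MulAut G}
    (h1 : Rel a b g hgm.le f' f) (W : Subgroup (Fr g)) :
    (∀ z, ∃ w ∈ W, f (subHom a b g hgm.le z) = subHom a b g hgm.le (w * z)) ↔
      ∀ z, f' z * z⁻¹ ∈ W := by
  constructor
  · intro h2 z
    obtain ⟨w, hw, h3⟩ := h2 z
    rw [h1.on] at h3
    rw [subHom_injective h hgm h3, mul_inv_cancel_right]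
    exact hw
  · intro h2 z
    exact ⟨_, h2 z, by rw [h1.on, inv_mul_cancel_right]⟩

theorem MR_le_MMs (h : IsSurf a b) (lo hi : ℕ) : MR h lo hi ≤ MMs h := by
  apply MR_le h
  · intro i _ _
    exact Subgroup.subset_closure (Or.inr (Or.inl ⟨_, rfl⟩))
  · intro i _ _
    exact Subgroup.subset_closure (Or.inr (Or.inr (Or.inl ⟨_, rfl⟩)))
  · intro i j hij _ _
    exact Subgroup.subset_closure (Or.inr (Or.inr (Or.inr ⟨_, _, _, rfl⟩)))

/-- Every element of the mapping class group of the first `g` handles induces exactly one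
automorphism. -/
theorem part_one (hg0 : 0 < g) (hgm : g < m) (h : IsSurf a b) (hP : IsSurf x y) :
    (∀ f ∈ SubMod a b g, ∃ φ ∈ MCG x y, Ind x y a b hgm.le f φ ∧
      ∀ ψ, Ind x y a b hgm.le f ψ → ψ = φ) ∧
    ∀ φ ∈ MCG x y, ∃ f ∈ SubMod a b g, Ind x y a b hgm.le f φ := by
  rw [SubMod_eq h, MCG_eq hP, Xb_MMs hg0 hP]
  constructor
  · intro f hf
    obtain ⟨f', hf', hr⟩ := rel_of_MR h hgm.le f hf
    obtain ⟨φ, hφ, hi⟩ := FT_ind hP f' hf'
    refine ⟨φ, hφ, ind_of_rel hr hi, ?_⟩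
    intro ψ hψ
    apply MulEquiv.ext
    intro t
    obtain ⟨z, rfl⟩ := qH_surj hP t
    rw [rel_of_ind h hgm hr hψ z]
    exact (hi z).symm
  · intro φ hφ
    obtain ⟨f', hf', hi⟩ := TW_lift hP φ hφ
    obtain ⟨f, hf, hr⟩ := MR_of_rel h hgm.le f' hf'
    exact ⟨f, hf, ind_of_rel hr hi⟩

/-- A subgroup induced by a subgroup of finite index containing a conjugate of the deep elements
is a congruence subgroup. -/
theorem two_one (hg3 : 3 ≤ g) (hgm : g < m) (h : IsSurf a b) (hP : IsSurf x y)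
    (H : Subgroup (MulAut P)) (hI : ∀ t : P, MulAut.conj t ∈ H)
    (hK : ∃ K : Subgroup (MulAut G), K.FiniteIndex ∧ (∀ t : G, MulAut.conj t ∈ K) ∧
      (∃ ψ ∈ MCG a b, ∃ W : Subgroup (FreeGroup (Fin g ⊕ Fin g)), W.FiniteIndex ∧
        ∀ f ∈ SubMod a b g, (∀ z, ∃ w ∈ W, f (subHom a b g hgm.le z) =
          subHom a b g hgm.le (w * z)) → ψ * f * ψ⁻¹ ∈ K) ∧
      ∀ f ∈ SubMod a b g, f ∈ K → ∀ φ, Ind x y a b hgm.le f φ → φ ∈ H) :
    ∃ Γ : Subgroup P, Γ.Characteristic ∧ Γ.FiniteIndex ∧ ∀ φ ∈ MCG x y, InnMod Γ φ → φ ∈ H := by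
  obtain ⟨K, hKf, hKI, ⟨ψ, hψ, W, hW, hd⟩, hKH⟩ := hK
  rw [MCG_eq hP]
  rw [MCG_eq h] at hψ
  rw [SubMod_eq h] at hd hKH
  refine cong_of_ext hg3 hgm h hP H hI K hKf hKI W hW ψ hψ ?_ ?_
  · intro f' f hr hf hz
    exact hd f hf ((rel_deep h hgm hr W).mpr hz)
  · intro f' f φ hr hf hi hfK
    exact hKH f hf hfK φ (ind_of_rel hr hi)

/-- A congruence subgroup extends. -/
theorem one_three (hgm : g < m) (h : IsSurf a b) (hP : IsSurf x y) (hg0 : 0 < g)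
    (H : Subgroup (MulAut P))
    (hH : ∃ Γ : Subgroup P, Γ.Characteristic ∧ Γ.FiniteIndex ∧
      ∀ φ ∈ MCG x y, InnMod Γ φ → φ ∈ H) :
    ∃ K : Subgroup (MulAut G), K.FiniteIndex ∧ (∀ t : G, MulAut.conj t ∈ K) ∧
      (∀ T ∈ Twists a b (fun i => g ≤ i) (fun i => g ≤ i) (fun j => g < j), T ∈ K) ∧
      (∃ W : Subgroup (FreeGroup (Fin g ⊕ Fin g)), W.FiniteIndex ∧
        ∀ f ∈ SubMod a b g, (∀ z, ∃ w ∈ W, f (subHom a b g hgm.le z) =
          subHom a b g hgm.le (w * z)) → f ∈ K) ∧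
      ∀ f ∈ SubMod a b g, f ∈ K → ∀ φ, Ind x y a b hgm.le f φ → φ ∈ H := by
  obtain ⟨Γ, hc, hf, hH⟩ := hH
  obtain ⟨K, k1, k2, k3, k4, k5⟩ := ext_of_cong h hP hgm.le Γ hc hf
  refine ⟨K, k1, k2, fun T hT => k3 (Twists_high h T hT), ?_, ?_⟩
  · refine ⟨Γ.comap (qH x y), comap_fi _ hf, ?_⟩
    intro f hfs hz
    rw [SubMod_eq h] at hfs
    obtain ⟨f', hf', hr⟩ := rel_of_MR h hgm.le f hfs
    exact k4 f' f hr ((rel_deep h hgm hr _).mp hz)
  · intro f hfs hfK φ hφ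
    obtain ⟨φ', hφ', -, hu⟩ := (part_one hg0 hgm h hP).1 f hfs
    rw [SubMod_eq h] at hfs
    obtain ⟨f', hf', hr⟩ := rel_of_MR h hgm.le f hfs
    have e1 := hu φ hφ
    exact hH φ (by rw [e1]; exact hφ') (k5 f' f φ hr (rel_of_ind h hgm hr hφ) hfK)

/-- If the complement has genus at least `g`, an extension containing its mapping class group
contains a conjugate of the mapping class group of the first `g` handles. -/
theorem three_two (hgm : g < m) (h2 : 2 * g ≤ m) (h : IsSurf a b) (H : Subgroup (MulAut P))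
    (hK : ∃ K : Subgroup (MulAut G), K.FiniteIndex ∧ (∀ t : G, MulAut.conj t ∈ K) ∧
      (∀ T ∈ Twists a b (fun i => g ≤ i) (fun i => g ≤ i) (fun j => g < j), T ∈ K) ∧
      ∀ f ∈ SubMod a b g, f ∈ K → ∀ φ, Ind x y a b hgm.le f φ → φ ∈ H) :
    ∃ K : Subgroup (MulAut G), K.FiniteIndex ∧ (∀ t : G, MulAut.conj t ∈ K) ∧
      (∃ ψ ∈ MCG a b, ∃ W : Subgroup (FreeGroup (Fin g ⊕ Fin g)), W.FiniteIndex ∧
        ∀ f ∈ SubMod a b g, (∀ z, ∃ w ∈ W, f (subHom a b g hgm.le z) =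
          subHom a b g hgm.le (w * z)) → ψ * f * ψ⁻¹ ∈ K) ∧
      ∀ f ∈ SubMod a b g, f ∈ K → ∀ φ, Ind x y a b hgm.le f φ → φ ∈ H := by
  obtain ⟨K, k1, k2, k3, k4⟩ := hK
  obtain ⟨ψ, hψ, hs⟩ := exists_shift h g h2
  refine ⟨K, k1, k2, ⟨ψ, ?_, ⊤, inferInstance, ?_⟩, k4⟩
  · rw [MCG_eq h]
    exact MR_le_MMs h _ _ hψ
  · intro f hf _
    rw [SubMod_eq h] at hf
    exact MR_high_le h k3 (hs f hf)

end

end Pool.MP_59b15d_al.H60G
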